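import Pool.Agent.TSK.Gompf
import Pool.Agent.TSQ.ToCS

/-!
# TSK/GompfF: Gompf's move, from `SwapStatement`
-/

open scoped Manifold ContDiff Topology
open Complex (I)
open Set Filter

namespace Pool.Agent.TSK
open Pool.Agent.TS
open Pool.Agent.CSG

/-- **Gompf's move** (from `SwapStatement` and the passage PD ⟹ CS). -/
theorem gompf_aux {X : Type*} [TopologicalSpace X] [ChartedSpace E4 X]
    (hsw : SwapStatement X)
    {C : Matrix (Fin 3) (Fin 3) ℤ} (hC : C.det = 1) (h0 : C 0 0 = 1)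
    (h1 : C 1 0 = 0) (h2 : C 2 0 = 0) (m m' : ℤ)
    (D : CSData (Matrix.transvection 1 0 1 * C) X) :
    Nonempty (CSData (Matrix.transvection 1 0 1 * ((!![1, 0, m; 0, 1, m'; 0, 0, 1])⁻¹ * C *
      !![1, 0, m; 0, 1, m'; 0, 0, 1])) X) := by
  obtain ⟨κ₀, δ, hδ, hκ, haxis, hiso⟩ := exists_isots hC h0 h1 h2
  have hdetT : (Matrix.transvection (1 : Fin 3) 0 (1 : ℤ)).det = 1 :=
    Matrix.det_transvection_of_ne _ _ (by decide) _
  have hdet : (Matrix.transvection 1 0 1 * C).det = 1 := by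
    rw [Matrix.det_mul, hC, hdetT]
    simp
  set M : Matrix (Fin 3) (Fin 3) ℤ := !![1, 0, m; 0, 1, m'; 0, 0, 1] with hM
  have hMdet : M.det = 1 := by
    rw [hM, Matrix.det_fin_three]
    simp
  have hMi : M * M⁻¹ = 1 := Matrix.mul_nonsing_inv M (by rw [hMdet]; exact isUnit_one)
  have hC'det : (M⁻¹ * C * M).det = 1 := by
    have h3 : M.det * M⁻¹.det = 1 := by rw [← Matrix.det_mul, hMi, Matrix.det_one]
    rw [Matrix.det_mul, Matrix.det_mul, hC, hMdet]
    rw [hMdet, one_mul] at h3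
    rw [h3]
    simp
  have hdet' : (Matrix.transvection 1 0 1 * (M⁻¹ * C * M)).det = 1 := by
    rw [Matrix.det_mul, hC'det, hdetT]
    simp
  obtain ⟨aC, haC, hmC⟩ := exists_actE (A := C) (by rw [hC]; exact isUnit_one)
  obtain ⟨B, hB, hBm⟩ := exists_actE (A := Matrix.transvection 1 0 1 * C) (by
    rw [hdet]; exact isUnit_one)
  obtain ⟨Ψ, hΨ⟩ := hiso 1 B hB
  obtain ⟨Ψ₀, hΨ₀⟩ := hiso 0 aC (by intro x; rw [haC, Matrix.transvection_zero, one_mul])
  have hsh0 : sh (fun y _ => ((0 : ℤ) : ℝ) * lam y) = 1 := by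
    ext1 x
    show pt (x 0) (x 1 + ((0 : ℤ) : ℝ) * lam (x 0)) (x 2) = x
    rw [Int.cast_zero, zero_mul, add_zero, pt_eta]
  rw [hsh0, one_mul] at hΨ₀
  -- forward
  obtain ⟨S, -⟩ := surg_of_cs hB D
  obtain ⟨S₁⟩ := surg_isot hBm S Ψ
  rw [hΨ] at S₁
  have hfun : (fun (y : ℝ) (_ : ℝ) => ((1 : ℤ) : ℝ) * lam y) = fun y _ => lam y := by
    funext y _; simp
  rw [hfun] at S₁
  have hmono : ∃ A, Mono A (sh (fun y _ => lam y) * κ₀) := by
    refine ⟨_, (sh_mono (f := fun y _ => lam y) (lam_smooth.comp contDiff_fst) 1 0 ?_ ?_).mul hκ⟩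
    · intro n y a b
      simp [lam_add_int]
    · exact lam_zero (by norm_num) (by norm_num)
  obtain ⟨A₁, hA₁⟩ := hmono
  obtain ⟨S₂, ε, hε, hε', k, hP⟩ := surg_normal hA₁ (Move_eventually hδ haxis) S₁
  -- shrink
  set ρ : ℝ := min (1 / 8) δ with hρ
  have hρ0 : 0 < ρ := lt_min (by norm_num) hδ
  set c : ℝ := min 1 (min (1 / 1000 / ε) (ρ / (6 * ε))) with hc
  have hc0 : 0 < c := lt_min one_pos (lt_min (by positivity) (by positivity))
  have hc1 : c ≤ 1 := min_le_left _ _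
  have hc2 : c * ε ≤ 1 / 1000 := by
    have : c ≤ 1 / 1000 / ε := (min_le_right _ _).trans (min_le_left _ _)
    rwa [le_div_iff₀ hε] at this
  have hc3 : 6 * (c * ε) ≤ ρ := by
    have : c ≤ ρ / (6 * ε) := (min_le_right _ _).trans (min_le_right _ _)
    rw [le_div_iff₀ (by positivity)] at this
    linarith
  obtain ⟨S₃, hS₃⟩ := surg_shrink hA₁ S₂ c hc0 hc1
  have hcε : 0 < c * ε := mul_pos hc0 hε
  have N : Nrm S₃ κ₀ δ (c * ε) k :=
    { δpos := hδ
      εpos := hcε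
      εle := by linarith
      fac := rfl
      axis := haxis
      P_eq := by
        intro t z h1 h2
        rw [hS₃, hP t z h1 h2, smul_smul]
      mono := ⟨C, hκ⟩ }
  obtain ⟨PD₁⟩ := pd_of_nrm hsw N (ρ := ρ) hc2 (by linarith) (min_le_left _ _) (min_le_right _ _)
  obtain ⟨PD₂⟩ := pd_gompf PD₁ hcε hc2 m m'
  -- the new monodromy is adapted
  have hax' : ∀ x, |x 1| < min δ (1 / 5) → |x 2| < min δ (1 / 5) →
      ((Qm m m')⁻¹ * κ₀ * Qm m m') x = x := by
    intro x hx1 hx2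
    show (Qm m m')⁻¹ (κ₀ (Qm m m' x)) = x
    have e1 : Qm m m' x = x := Qm_near m m' (hx2.trans_le (min_le_right _ _))
    rw [e1, haxis x (hx1.trans_le (min_le_left _ _)) (hx2.trans_le (min_le_left _ _))]
    rw [Equiv.Perm.inv_eq_iff_eq]
    exact e1.symm
  have hmQ : Mono (M⁻¹ * C * M) ((Qm m m')⁻¹ * κ₀ * Qm m m') :=
    ((Qm_mono m m').inv.mul hκ).mul (Qm_mono m m')
  have hAx := axMono_of hmQ (lt_min hδ (by norm_num : (0 : ℝ) < 1 / 5)) hax'
  obtain ⟨D'⟩ := TSQ.cs_of_pd hsw hC'det hAx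
    (fun k B hB => exists_isotQ haC hmC hΨ₀ m m' k hB) PD₂ (Or.inr rfl) hcε hc2 (by
      rw [lt_min_iff]
      constructor
      · have := min_le_right (1 / 8) δ
        rw [← hρ] at this
        linarith
      · have := min_le_left (1 / 8) δ
        rw [← hρ] at this
        linarith)
  rw [neg_neg] at D'
  exact ⟨D'⟩

/-- Gompf's move, in the form used for the tables. -/
theorem gompf_move_of {X : Type*} [TopologicalSpace X] [ChartedSpace E4 X]
    (hsw : SwapStatement X)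
    {A : Matrix (Fin 3) (Fin 3) ℤ} (hA : A.det = 1) (h0 : A 0 0 = 1) (h1 : A 1 0 = 1)
    (h2 : A 2 0 = 0) (k : ℤ) (D : CSData A X) :
    Nonempty (CSData (!![1, 0, 0; 0, 1, k; 0, 0, 1] * A) X) := by
  set C : Matrix (Fin 3) (Fin 3) ℤ := Matrix.transvection 1 0 (-1) * A with hCdef
  have hT : Matrix.transvection (1 : Fin 3) 0 (1 : ℤ) * Matrix.transvection 1 0 (-1) = 1 := by
    rw [Matrix.transvection_mul_transvection_same _ _ (by decide)]
    simp
  have hTC : Matrix.transvection 1 0 1 * C = A := by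
    rw [hCdef, ← mul_assoc, hT, one_mul]
  have hC : C.det = 1 := by
    rw [hCdef, Matrix.det_mul, hA, Matrix.det_transvection_of_ne _ _ (by decide)]
    simp
  have hentry : ∀ i j, C i j = A i j + (if i = 1 then -A 0 j else 0) := by
    intro i j
    rw [hCdef, Matrix.transvection, add_mul, one_mul, Matrix.add_apply]
    congr 1
    fin_cases i <;> simp [Matrix.mul_apply, Fin.sum_univ_three, Matrix.single]
  have c0 : C 0 0 = 1 := by rw [hentry, h0]; simp
  have c1 : C 1 0 = 0 := by rw [hentry, h1, h0]; simp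
  have c2 : C 2 0 = 0 := by rw [hentry, h2]; simp
  rw [← hTC] at D
  obtain ⟨D'⟩ := gompf_aux hsw hC c0 c1 c2 (-k) 0 D
  set M : Matrix (Fin 3) (Fin 3) ℤ := !![1, 0, -k; 0, 1, 0; 0, 0, 1] with hM
  have hMdet : M.det = 1 := by
    rw [hM, Matrix.det_fin_three]
    simp
  have hMi : M * M⁻¹ = 1 := Matrix.mul_nonsing_inv M (by rw [hMdet]; exact isUnit_one)
  refine cs_conj (Q := M) (by rw [hMdet]; exact isUnit_one) ?_ D'
  -- `M (T M⁻¹ C M) = (N T C) M`, as `M T = N T M`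
  have hTe : (Matrix.transvection 1 0 1 : Matrix (Fin 3) (Fin 3) ℤ) = !![1, 0, 0; 1, 1, 0; 0, 0, 1] := by
    ext i j
    fin_cases i <;> fin_cases j <;> simp [Matrix.transvection, Matrix.single]
  have hMT : M * Matrix.transvection 1 0 1 =
      !![1, 0, 0; 0, 1, k; 0, 0, 1] * Matrix.transvection 1 0 1 * M := by
    rw [hM, hTe]
    ext i j
    fin_cases i <;> fin_cases j <;> simp [Matrix.mul_apply, Fin.sum_univ_three]
  have e1 : M * (Matrix.transvection 1 0 1 * (M⁻¹ * C * M)) =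
      (M * Matrix.transvection 1 0 1) * (M⁻¹ * C * M) := by simp only [mul_assoc]
  have e2 : (!![1, 0, 0; 0, 1, k; 0, 0, 1] * Matrix.transvection 1 0 1 * M) * (M⁻¹ * C * M) =
      !![1, 0, 0; 0, 1, k; 0, 0, 1] * Matrix.transvection 1 0 1 * (M * M⁻¹) * C * M := by
    simp only [mul_assoc]
  rw [e1, hMT, e2, hMi, mul_one, ← hTC]
  simp only [mul_assoc]

end Pool.Agent.TSK
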