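import Pool.Agent.TSK.CsPD

/-!
# TSK/CsPDf: from normalised surgery data to P-data, conclusion
-/

open scoped Manifold ContDiff Topology
open Complex (I)
open Set Filter

namespace Pool.Agent.TSK
open Pool.Agent.TS
open Pool.Agent.CSG

theorem pc_smooth : ContDiff ℝ ∞ fun q : E3 × ℝ => pc q.1 q.2 := by
  unfold pc
  have ho : ∀ {f : E3 × ℝ → ℝ}, ContDiff ℝ ∞ f → ContDiff ℝ ∞ fun q => (f q : ℂ) :=
    fun hf => Complex.ofRealCLM.contDiff.comp hf
  have h : ContDiff ℝ ∞ (fun q : E3 × ℝ => q.1 0) :=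
    (contDiff_euclidean.1 contDiff_id 0).comp contDiff_fst
  exact (ho (h.sub contDiff_const)).add ((ho (contDiff_snd.sub contDiff_const)).mul contDiff_const)

theorem rc_smooth : ContDiff ℝ ∞ fun q : E3 × ℝ => rc q.1 := by
  unfold rc
  have ho : ∀ {f : E3 × ℝ → ℝ}, ContDiff ℝ ∞ f → ContDiff ℝ ∞ fun q => (f q : ℂ) :=
    fun hf => Complex.ofRealCLM.contDiff.comp hf
  have h : ∀ i : Fin 3, ContDiff ℝ ∞ (fun q : E3 × ℝ => q.1 i) := fun i =>
    (contDiff_euclidean.1 contDiff_id i).comp contDiff_fst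
  exact (ho (h 2)).add ((ho (h 1)).mul contDiff_const)

/-- `(x, t) ↦ (r, p)` -/
noncomputable def affR : (E3 × ℝ) ≃ (ℂ × ℂ) where
  toFun q := (rc q.1, pc q.1 q.2)
  invFun a := (xP a.2 a.1, 1 / 2 + a.2.im)
  left_inv q := by
    apply Prod.ext
    · exact xP_pc _ _
    · show 1 / 2 + (pc q.1 q.2).im = q.2
      rw [pc_im]; ring
  right_inv a := by
    apply Prod.ext
    · exact rc_xP _ _
    · exact pc_xP _ _

theorem affR_smooth : ContDiff ℝ ∞ affR := rc_smooth.prodMk pc_smooth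

theorem affR_symm_smooth : ContDiff ℝ ∞ affR.symm := by
  show ContDiff ℝ ∞ fun a : ℂ × ℂ => (xP a.2 a.1, 1 / 2 + a.2.im)
  have h1 : ContDiff ℝ ∞ fun a : ℂ × ℂ => xP a.2 a.1 :=
    xP_smooth.comp (contDiff_snd.prodMk contDiff_fst)
  exact h1.prodMk (contDiff_const.add (Complex.imCLM.contDiff.comp contDiff_snd))

theorem norm_yc_le (y : S2) : ‖yc y‖ ≤ 1 := by
  have h := y.2
  rw [mem_sphere_zero_iff_norm, EuclideanSpace.norm_eq, Real.sqrt_eq_one, Fin.sum_univ_three] at h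
  simp only [Real.norm_eq_abs, sq_abs] at h
  have h2 : ‖yc y‖ ^ 2 ≤ 1 := by
    rw [Complex.sq_norm, Complex.normSq_apply]
    unfold yc
    simp only [Complex.add_re, Complex.add_im, Complex.ofReal_re, Complex.ofReal_im,
      Complex.mul_re, Complex.mul_im, Complex.I_re, Complex.I_im]
    nlinarith [sq_nonneg ((y : E3) 0)]
  nlinarith [norm_nonneg (yc y)]

section
variable {X : Type*} [TopologicalSpace X] [ChartedSpace E4 X] {φ κ : Equiv.Perm E3}
  {δ ε : ℝ} {k : ℤ}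

section
variable {S : Surg φ X} (N : Nrm S κ δ ε k) {ρ : ℝ} (hε' : ε ≤ 1 / 1000)
  (h5 : 5 * ε < ρ) (hρ' : ρ ≤ 1 / 8) (hδ : ρ ≤ δ) {L' : LS ε ρ (-1) (-k) X}
  (hRg : L'.Rg = (csLS N hε' hρ' hδ).Rg)
  (hG : ∀ p r, (p, r) ∈ Wd ρ → 3 * ε ≤ ‖fr p‖ → 3 * ε ≤ ‖fr r‖ → L'.G (r, p) = csG S (p, r))

theorem NP_of_pc {x : E3} {t : ℝ} (h1 : -(1 / 8) < t) (h2 : t < 9 / 8)
    (hp : pc x t ∉ GI) : NP (x 0) t := by
  rintro ⟨h3, h4⟩
  apply hp
  rw [pc_mem h1 h2]
  refine ⟨h3, ⌊x 0⌋, ?_⟩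
  have := Int.fract_add_floor (x 0)
  rw [h4] at this
  linarith

include N h5 hρ' hδ hG in
theorem pdH_loc {x : E3} {t : ℝ} (h1 : -(1 / 8) < t) (h2 : t < 9 / 8) (hx : OffAx x)
    (hC : ¬ OnC x t) : IsLocalDiffeomorphAt 𝓘(ℝ, E3 × ℝ) (𝓡 4) ∞ (pdH (ε := ε) S L') (x, t) := by
  have hε := N.εpos
  have ct : ∀ᶠ q : E3 × ℝ in 𝓝 (x, t), -(1 / 8) < q.2 ∧ q.2 < 9 / 8 :=
    (continuousAt_const.eventually_lt continuous_snd.continuousAt h1).and
      (continuous_snd.continuousAt.eventually_lt continuousAt_const h2)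
  have cp : Continuous fun q : E3 × ℝ => ‖fr (pc q.1 q.2)‖ :=
    fr_continuous.comp pc_smooth.continuous
  have cr : Continuous fun q : E3 × ℝ => ‖fr (rc q.1)‖ := fr_continuous.comp rc_smooth.continuous
  have cx : ∀ᶠ q : E3 × ℝ in 𝓝 (x, t), ¬ IsLat q.1 := by
    have h1 : {y : E3 | IsLat y}ᶜ ∈ 𝓝 x := isClosed_isLat.isOpen_compl.mem_nhds hx.not_latK
    exact (continuous_fst.tendsto (x, t)).eventually h1
  by_cases hW : (pc x t, rc x) ∈ Wd ρ
  · have hld := (ld_of_perm affR_smooth affR_symm_smooth (x, t)).comp (𝓡 4) X (g := L'.G)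
      (L'.G_loc (rc x) (pc x t) (Wd_symm hW) (offAx_iff.1 hx) (fun h => hC ((onC_iff h1 h2).2 h)))
    apply ld_congr hld
    have hWe : ∀ᶠ q : E3 × ℝ in 𝓝 (x, t), (pc q.1 q.2, rc q.1) ∈ Wd ρ := by
      rcases hW with h | h
      · filter_upwards [cp.continuousAt.eventually_lt continuousAt_const h] with q hq
        exact Or.inl hq
      · filter_upwards [cr.continuousAt.eventually_lt continuousAt_const h] with q hq
        exact Or.inr hq
    filter_upwards [ct, hWe, cx] with q h3 h4 h6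
    exact pdH_near N hρ' hδ hG h3.1 h3.2 h4 (Or.inr h6)
  · have hW' : ρ ≤ ‖fr (pc x t)‖ ∧ ρ ≤ ‖fr (rc x)‖ := by
      constructor
      · by_contra h
        exact hW (Or.inl (not_le.1 h))
      · by_contra h
        exact hW (Or.inr (not_le.1 h))
    have hp : pc x t ∉ GI := ne_GI_of_ge (by linarith) hW'.1
    apply ld_congr (KL_loc S hx.not_latK (NP_of_pc h1 h2 hp))
    have e1 : ∀ᶠ q : E3 × ℝ in 𝓝 (x, t), 3 * ε < ‖fr (pc q.1 q.2)‖ :=
      continuousAt_const.eventually_lt cp.continuousAt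
        (by show 3 * ε < ‖fr (pc x t)‖; linarith [hW'.1])
    have e2 : ∀ᶠ q : E3 × ℝ in 𝓝 (x, t), 3 * ε < ‖fr (rc q.1)‖ :=
      continuousAt_const.eventually_lt cr.continuousAt
        (by show 3 * ε < ‖fr (rc x)‖; linarith [hW'.2])
    filter_upwards [ct, cx, e1, e2] with q h3 h4 h6 h7
    exact pdH_far N h5 hρ' hδ hG h3.1 h3.2 h6.le h7.le h4

include N h5 in
theorem pdH_per {x : E3} {t : ℝ} (m : Fin 3 → ℤ) (hx : ¬ IsLat x) :
    pdH (ε := ε) S L' (x + vec m, t) = pdH (ε := ε) S L' (x, t) := by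
  have hε := N.εpos
  unfold pdH
  simp only
  rw [pc_add_vec, rc_add_vec, fr_add (int_mem_GI _), fr_add (GI_mk _ _)]
  split_ifs with h
  · apply L'.G_per
    · rcases h with h | h
      · exact Or.inr (by show ‖fr (pc x t)‖ < ρ; linarith)
      · exact Or.inl (by show ‖fr (rc x)‖ < ρ; linarith)
    · exact GI_mk _ _
    · exact int_mem_GI _
  · exact KL_per S hx t m

include N h5 hρ' hδ hG in
theorem pdH_mon {x : E3} {t : ℝ} (h1 : -(1 / 8) < t) (h2 : t < 1 / 8) (hx : OffAx x) :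
    pdH (ε := ε) S L' (κ x, t) = pdH (ε := ε) S L' (x, t + 1) := by
  have hε := N.εpos
  obtain ⟨A, hA⟩ := N.mono
  rcases lt_or_ge ‖fr (rc x)‖ ρ with h3 | h3
  · obtain ⟨m, hm⟩ := kap_near hA N.axis (lt_of_lt_of_le h3 hδ)
    rw [hm, pdH_per N h5 m hx.not_latK]
    rw [pdH_near N hρ' hδ hG h1 (by linarith) (Or.inr h3) (Or.inr hx.not_latK)]
    rw [pdH_near N hρ' hδ hG (by linarith) (by linarith) (Or.inr h3) (Or.inr hx.not_latK)]
    rw [pc_add_one]
    have := L'.G_per (rc x) (pc x t) 0 I (Or.inl h3) GI_zero I_mem_GI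
    rw [add_zero] at this
    exact this.symm
  · have h4 : ρ ≤ ‖fr (rc (κ x))‖ := by
      by_contra h
      push Not at h
      rw [kap_fr hA N.axis hδ] at h
      linarith
    have hκ : ¬ IsLat (κ x) := fun h => hx.not_latK ((hA.isLat x).1 h)
    obtain ⟨h6, _⟩ := fr_pc_ge (x := κ x) (t := t) h1.le h2.le
    obtain ⟨_, h7⟩ := fr_pc_ge (x := x) (t := t) h1.le h2.le
    rw [pdH_far N h5 hρ' hδ hG h1 (by linarith) (by linarith) (by linarith) hκ]
    rw [pdH_far N h5 hρ' hδ hG (by linarith) (by linarith) (by linarith) (by linarith) hx.not_latK]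
    exact KL_mon N hx.not_latK (by linarith) (by linarith)

/-- being near the tori -/
def Near3 (ε : ℝ) (x : E3) (t : ℝ) : Prop := ‖fr (pc x t)‖ < 3 * ε ∨ ‖fr (rc x)‖ < 3 * ε

theorem not_near3 {x : E3} {t : ℝ} (h : ¬ Near3 ε x t) :
    3 * ε ≤ ‖fr (pc x t)‖ ∧ 3 * ε ≤ ‖fr (rc x)‖ := by
  unfold Near3 at h
  push Not at h
  exact h

include N h5 hρ' hδ hG hRg in
theorem pdH_Rg {x : E3} {t : ℝ} (h1 : 0 ≤ t) (h2 : t < 1) (hx : OffAx x) (hC : ¬ OnC x t) :
    pdH (ε := ε) S L' (x, t) ∈ (csLS N hε' hρ' hδ).Rg ↔ Near3 ε x t := by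
  have hε := N.εpos
  by_cases h : Near3 ε x t
  · simp only [h, iff_true]
    rw [← hRg]
    have hW : (pc x t, rc x) ∈ Wd ρ := by
      rcases h with h | h
      · exact Or.inl (by show ‖fr (pc x t)‖ < ρ; linarith)
      · exact Or.inr (by show ‖fr (rc x)‖ < ρ; linarith)
    left
    refine ⟨rc x, pc x t, h.symm, offAx_iff.1 hx,
      fun h => hC ((onC_iff (by linarith) (by linarith)).2 h), ?_⟩
    exact pdH_near N hρ' hδ hG (by linarith) (by linarith) hW (Or.inr hx.not_latK)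
  · simp only [h, iff_false]
    obtain ⟨h3, h4⟩ := not_near3 h
    rw [pdH_far N h5 hρ' hδ hG (by linarith) (by linarith) h3 h4 hx.not_latK]
    exact far_not_Rg N hε' h5 hρ' hδ h1 h2.le h3 h4

/-- replace a time in `[0, 1)` by a time in `(0, 1]`, far from the tori -/
theorem KL_one {S : Surg φ X} (N : Nrm S κ δ ε k) {x : E3} (hx : ¬ IsLat x) :
    KL S x 0 = KL S (κ⁻¹ x) 1 := by
  obtain ⟨A, hA⟩ := N.mono
  have hx' : ¬ IsLat (κ⁻¹ x) := fun h => hx ((hA.inv.isLat x).1 h)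
  have := KL_mon N hx' (t := 0) (by norm_num) (by norm_num)
  rw [app_inv, zero_add] at this
  exact this

theorem KL_inj0 {S : Surg φ X} (N : Nrm S κ δ ε k) {x y : E3} {s t : ℝ} (hx : ¬ IsLat x)
    (hy : ¬ IsLat y) (hs : 0 ≤ s) (hs1 : s < 1) (ht : 0 ≤ t) (ht1 : t < 1) (hn : NP (x 0) s)
    (hn' : NP (y 0) t) (h : KL S x s = KL S y t) : s = t ∧ ∃ m, y = x + vec m := by
  obtain ⟨A, hA⟩ := N.mono
  have np1 : ∀ z : ℝ, NP z 1 := fun z h => by norm_num at h
  have hx' : ¬ IsLat (κ⁻¹ x) := fun h => hx ((hA.inv.isLat x).1 h)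
  have hy' : ¬ IsLat (κ⁻¹ y) := fun h => hy ((hA.inv.isLat y).1 h)
  rcases hs.lt_or_eq with h1 | h1
  · rcases ht.lt_or_eq with h2 | h2
    · exact KL_inj N hx hy h1 hs1.le h2 ht1.le hn hn' h
    · subst h2
      rw [KL_one N hy] at h
      have := KL_inj N hx hy' h1 hs1.le one_pos le_rfl hn (np1 _) h
      exact absurd this.1 hs1.ne
  · subst h1
    rw [KL_one N hx] at h
    rcases ht.lt_or_eq with h2 | h2
    · have := KL_inj N hx' hy one_pos le_rfl h2 ht1.le (np1 _) hn' h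
      exact absurd this.1.symm ht1.ne
    · subst h2
      rw [KL_one N hy] at h
      obtain ⟨_, m, hm⟩ := KL_inj N hx' hy' one_pos le_rfl one_pos le_rfl (np1 _) (np1 _) h
      refine ⟨rfl, A.mulVec m, ?_⟩
      have h3 := congrArg κ hm
      rw [app_inv, hA.lat, app_inv] at h3
      exact h3

include N h5 hρ' hδ hG hRg in
theorem pdH_inj {x y : E3} {s t : ℝ} (hx : OffAx x) (hC : ¬ OnC x s) (hy : OffAx y)
    (hC' : ¬ OnC y t) (hs : 0 ≤ s) (hs1 : s < 1) (ht : 0 ≤ t) (ht1 : t < 1)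
    (h : pdH (ε := ε) S L' (x, s) = pdH (ε := ε) S L' (y, t)) : s = t ∧ ∃ m, y = x + vec m := by
  have hε := N.εpos
  have e1 := pdH_Rg N hε' h5 hρ' hδ hRg hG hs hs1 hx hC
  have e2 := pdH_Rg N hε' h5 hρ' hδ hRg hG ht ht1 hy hC'
  have oC : ¬ OnCK (rc x) (pc x s) := fun h => hC ((onC_iff (by linarith) (by linarith)).2 h)
  have oC' : ¬ OnCK (rc y) (pc y t) := fun h => hC' ((onC_iff (by linarith) (by linarith)).2 h)
  by_cases hn : Near3 ε x s
  · have hn' : Near3 ε y t := by rw [← e2, ← h, e1]; exact hn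
    have hW : (pc x s, rc x) ∈ Wd ρ := by
      rcases hn with h | h
      · exact Or.inl (by show ‖fr (pc x s)‖ < ρ; linarith)
      · exact Or.inr (by show ‖fr (rc x)‖ < ρ; linarith)
    have hW' : (pc y t, rc y) ∈ Wd ρ := by
      rcases hn' with h | h
      · exact Or.inl (by show ‖fr (pc y t)‖ < ρ; linarith)
      · exact Or.inr (by show ‖fr (rc y)‖ < ρ; linarith)
    rw [pdH_near N hρ' hδ hG (by linarith) (by linarith) hW (Or.inr hx.not_latK),
      pdH_near N hρ' hδ hG (by linarith) (by linarith) hW' (Or.inr hy.not_latK)] at h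
    obtain ⟨g1, g2⟩ := L'.G_inj _ _ _ _ (Wd_symm hW) (offAx_iff.1 hx) oC (Wd_symm hW')
      (offAx_iff.1 hy) oC' h
    obtain ⟨⟨a, ha⟩, ⟨b, hb⟩⟩ := mem_GI.1 g1
    obtain ⟨⟨c, hc⟩, ⟨d, hd⟩⟩ := mem_GI.1 g2
    rw [Complex.sub_re, rc_re, rc_re] at ha
    rw [Complex.sub_im, rc_im, rc_im] at hb
    rw [Complex.sub_re, pc_re, pc_re] at hc
    rw [Complex.sub_im, pc_im, pc_im] at hd
    have hd0 : d = 0 := by
      have f1 : (-1 : ℝ) < d := by linarith
      have f2 : (d : ℝ) < 1 := by linarith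
      have f3 : (-1 : ℤ) < d := by exact_mod_cast f1
      have f4 : d < (1 : ℤ) := by exact_mod_cast f2
      omega
    rw [hd0] at hd
    push_cast at hd
    refine ⟨by linarith, ![c, b, a], ?_⟩
    rw [← pt_eta y, ← pt_eta x, pt_add_vec]
    congr 1
    · show y 0 = x 0 + (c : ℝ)
      linarith
    · show y 1 = x 1 + (b : ℝ)
      linarith
    · show y 2 = x 2 + (a : ℝ)
      linarith
  · have hn' : ¬ Near3 ε y t := by
      intro h'
      apply hn
      rw [← e1, h, e2]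
      exact h'
    obtain ⟨h3, h4⟩ := not_near3 hn
    obtain ⟨h3', h4'⟩ := not_near3 hn'
    rw [pdH_far N h5 hρ' hδ hG (by linarith) (by linarith) h3 h4 hx.not_latK,
      pdH_far N h5 hρ' hδ hG (by linarith) (by linarith) h3' h4' hy.not_latK] at h
    exact KL_inj0 N hx.not_latK hy.not_latK hs hs1 ht ht1
      (NP_of_pc (by linarith) (by linarith) (ne_GI_of_ge (by linarith) h3))
      (NP_of_pc (by linarith) (by linarith) (ne_GI_of_ge (by linarith) h3')) h

include N h5 hρ' hδ hG hRg in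
theorem pdH_cover (q : X) : (∃ θ x₀, q = L'.jT (θ, x₀ - 1 / 2, 0)) ∨ (∃ y, q = L'.jK (y, 0)) ∨
    ∃ x t, OffAx x ∧ ¬ OnC x t ∧ 0 ≤ t ∧ t < 1 ∧ q = pdH (ε := ε) S L' (x, t) := by
  have hε := N.εpos
  obtain ⟨A, hA⟩ := N.mono
  by_cases hq : q ∈ (csLS N hε' hρ' hδ).Rg
  · rw [← hRg] at hq
    rcases hq with ⟨r, p, hpr, hr0, hC0, hq⟩ | ⟨y, hq⟩ | ⟨q₀, y, hq⟩
    · right; right
      have ht := fr_im_mem p
      have e1 : L'.G (r, p) = L'.G (r, fr p) := by
        have hW : (r, fr p) ∈ Wd ρ := by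
          rcases hpr with h | h
          · exact Or.inl (by show ‖fr r‖ < ρ; linarith)
          · exact Or.inr (by show ‖fr (fr p)‖ < ρ; rw [fr_fr]; linarith)
        have := L'.G_per r (fr p) 0 (p - fr p) hW GI_zero (sub_fr_mem p)
        rw [add_zero, add_sub_cancel] at this
        exact this
      refine ⟨xP (fr p) r, 1 / 2 + (fr p).im, ?_, ?_, by linarith, by linarith, ?_⟩
      · rw [offAx_iff, rc_xP]
        exact hr0
      · rw [onC_iff (by linarith) (by linarith), rc_xP, pc_xP]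
        rintro ⟨h1, h2⟩
        exact hC0 ⟨by rwa [← fr_eq_zero, fr_fr, fr_eq_zero] at h1, h2⟩
      · rw [hq, e1]
        have hW : (pc (xP (fr p) r) (1 / 2 + (fr p).im), rc (xP (fr p) r)) ∈ Wd ρ := by
          rw [pc_xP, rc_xP]
          rcases hpr with h | h
          · exact Or.inr (by show ‖fr r‖ < ρ; linarith)
          · exact Or.inl (by show ‖fr (fr p)‖ < ρ; rw [fr_fr]; linarith)
        rw [pdH_near N hρ' hδ hG (by linarith) (by linarith) hW
          (Or.inr (OffAx.not_latK (by rw [offAx_iff, rc_xP]; exact hr0))), pc_xP, rc_xP]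
    · exact Or.inr (Or.inl ⟨y, hq⟩)
    · left
      exact ⟨q₀, y + 1 / 2, by rw [hq]; congr 2; ring_nf⟩
  · right; right
    have hT : q ∉ TT S := by
      rintro ⟨u, n, hqT⟩
      apply hq
      right; right
      refine ⟨u + 1 / 4, n, ?_⟩
      show q = csT S ε (u + 1 / 4, n, 0)
      rw [csT_eq S hε hε' _ _ (by simp), hqT]
      unfold ptT
      simp
    rcases KL_cover N hT with ⟨y, hy⟩ | ⟨x, t, hx, t0, t1, hnp, hqx⟩
    · exfalso
      apply hq
      right; left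
      refine ⟨sphMap swI.symm y, ?_⟩
      show q = S.j (sphMap swI (sphMap swI.symm y), -0)
      rw [hy, neg_zero]
      congr 2
      apply Subtype.ext
      simp [sphMap]
    · have hpG : pc x t ∉ GI := by
        intro h
        rw [pc_mem (by linarith) (by linarith)] at h
        obtain ⟨h3, a, ha⟩ := h
        apply hnp
        refine ⟨h3, ?_⟩
        rw [ha, add_comm, Int.fract_add_intCast]
        exact Int.fract_eq_self.2 ⟨by norm_num, by norm_num⟩
      have hfar : ¬ Near3 ε x t := by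
        intro hn
        apply hq
        have hW : (pc x t, rc x) ∈ Wd ρ := by
          rcases hn with h | h
          · exact Or.inl (by show ‖fr (pc x t)‖ < ρ; linarith)
          · exact Or.inr (by show ‖fr (rc x)‖ < ρ; linarith)
        left
        refine ⟨pc x t, rc x, hn, hpG, by rw [onCK_iff, xP_pc]; exact hx, ?_⟩
        show q = csG S (pc x t, rc x)
        rw [csG_KL N hρ' hδ (by linarith) (by linarith) hW hx, hqx]
      obtain ⟨h3, h4⟩ := not_near3 hfar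
      have hOff : OffAx x := offAx_iff.2 (ne_GI_of_ge (by linarith) h4)
      rcases t1.lt_or_eq with h6 | h6
      · refine ⟨x, t, hOff, ?_, t0.le, h6, ?_⟩
        · rw [onC_iff (by linarith) (by linarith)]
          exact fun h => hpG h.1
        · rw [pdH_far N h5 hρ' hδ hG (by linarith) (by linarith) h3 h4 hx, hqx]
      · subst h6
        have h7 : 3 * ε ≤ ‖fr (rc (κ x))‖ := by
          by_contra h
          push Not at h
          rw [kap_fr hA N.axis (by linarith)] at h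
          linarith
        have hOff' : OffAx (κ x) := offAx_iff.2 (ne_GI_of_ge (by linarith) h7)
        have h8 : 3 * ε ≤ ‖fr (pc (κ x) 0)‖ := by
          have := (fr_pc_ge (x := κ x) (t := 0) (by norm_num) (by norm_num)).1
          linarith
        refine ⟨κ x, 0, hOff', ?_, le_rfl, one_pos, ?_⟩
        · rintro ⟨h9, _⟩
          norm_num at h9
        · rw [pdH_far N h5 hρ' hδ hG (by norm_num) (by norm_num) h8 h7 hOff'.not_latK, hqx]
          have := KL_mon N hx (t := 0) (by norm_num) (by norm_num)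
          rw [zero_add] at this
          exact this.symm

end

/-- **Nrm ⟹ PD.** -/
theorem pd_of_nrm (hsw : SwapStatement X) {S : Surg φ X} (N : Nrm S κ δ ε k) {ρ : ℝ}
    (hε' : ε ≤ 1 / 1000) (h5 : 5 * ε < ρ) (hρ' : ρ ≤ 1 / 8) (hδ : ρ ≤ δ) :
    Nonempty (PD κ ε (-k) (-1) X) := by
  have hε := N.εpos
  obtain ⟨L', hRg, hG⟩ := hsw ε ρ (-k) (-1) hε hε' h5 hρ' (csLS N hε' hρ' hδ)
  have hG' : ∀ p r, (p, r) ∈ Wd ρ → 3 * ε ≤ ‖fr p‖ → 3 * ε ≤ ‖fr r‖ →
      L'.G (r, p) = csG S (p, r) := hG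
  refine ⟨{
    H := pdH (ε := ε) S L'
    jb := fun a => L'.jT (a.1, a.2.1 - 1 / 2, a.2.2)
    jc := L'.jK
    H_loc := fun x t h1 h2 hx hC => pdH_loc N h5 hρ' hδ hG' h1 h2 hx hC
    H_per := fun x t m _ _ hx => pdH_per N h5 m hx.not_latK
    H_mon := fun x t h1 h2 hx => pdH_mon N h5 hρ' hδ hG' h1 h2 hx
    H_inj := fun x y s t hx hC hy hC' hs hs1 ht ht1 h =>
      pdH_inj N hε' h5 hρ' hδ hRg hG' hx hC hy hC' hs hs1 ht ht1 h
    jb_per := ?_
    jb_loc := ?_
    jb_inj := ?_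
    jc_loc := L'.jK_loc
    jc_inj := L'.jK_inj
    glueb := ?_
    gluec := ?_
    disjb := ?_
    disjc := ?_
    disjbc := ?_
    cover := fun q => pdH_cover N hε' h5 hρ' hδ hRg hG' q }⟩
  · intro θ x ζ a b
    have := L'.jT_per θ (x - 1 / 2) ζ a b
    simp only
    rw [← this]
    congr 3
    ring
  · intro θ x ζ hζ
    let tr : (ℝ × ℝ × ℂ) ≃ (ℝ × ℝ × ℂ) :=
      ⟨fun a => (a.1, a.2.1 - 1 / 2, a.2.2), fun a => (a.1, a.2.1 + 1 / 2, a.2.2),
        fun a => by simp, fun a => by simp⟩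
    have c1 : ContDiff ℝ ∞ tr := by
      show ContDiff ℝ ∞ fun a : ℝ × ℝ × ℂ => (a.1, a.2.1 - 1 / 2, a.2.2)
      exact contDiff_fst.prodMk (((contDiff_fst.comp contDiff_snd).sub contDiff_const).prodMk
        (contDiff_snd.comp contDiff_snd))
    have c2 : ContDiff ℝ ∞ tr.symm := by
      show ContDiff ℝ ∞ fun a : ℝ × ℝ × ℂ => (a.1, a.2.1 + 1 / 2, a.2.2)
      exact contDiff_fst.prodMk (((contDiff_fst.comp contDiff_snd).add contDiff_const).prodMk
        (contDiff_snd.comp contDiff_snd))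
    exact (ld_of_perm c1 c2 (θ, x, ζ)).comp (𝓡 4) X (L'.jT_loc θ (x - 1 / 2) ζ hζ)
  · intro θ x ζ θ' x' ζ' hζ hζ' h
    obtain ⟨h1, ⟨b, hb⟩, h3⟩ := L'.jT_inj _ _ _ _ _ _ hζ hζ' h
    exact ⟨h1, ⟨b, by linarith⟩, h3⟩
  · intro θ x t s h1 h2 h3 h4
    simp only
    have e := L'.glueT θ (x - 1 / 2) (t - 1 / 2) s h3 h4
    rw [e]
    set r : ℂ := ε * s * ex (θ + (-k : ℤ) * (t - 1 / 2)) with hr
    have hrn : ‖r‖ = ε * s := by
      rw [hr]
      have := norm_smul_ex (ε * s) (θ + (-k : ℤ) * (t - 1 / 2)) (mul_pos hε h3).le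
      rw [Complex.ofReal_mul] at this
      exact this
    have hrc : rc (pt x r.im r.re) = r := by
      apply Complex.ext
      · rw [rc_re, pt_two']
      · rw [rc_im, pt_one']
    have hpc : pc (pt x r.im r.re) t = ((x - 1 / 2 : ℝ) : ℂ) + ((t - 1 / 2 : ℝ) : ℂ) * I := by
      unfold pc
      rw [pt_zero']
    have hfr : ‖fr r‖ < ρ := by
      have := fr_le (z := r) GI_zero
      rw [sub_zero, hrn] at this
      nlinarith
    have hrG : r ∉ GI := by
      intro h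
      have h6 := GI_norm_lt h (by rw [hrn]; nlinarith)
      rw [h6, norm_zero] at hrn
      nlinarith [mul_pos hε h3]
    rw [pdH_near N hρ' hδ hG' h1 h2 (Or.inr (by show ‖fr (rc (pt x r.im r.re))‖ < ρ; rw [hrc]; exact hfr))
      (Or.inr (OffAx.not_latK (by rw [offAx_iff, hrc]; exact hrG))), hrc, hpc]
  · intro y u s h1 h2
    rw [L'.glueK y u s h1 h2]
    set z : ℂ := ε * s * ex ((-1 : ℤ) * thc u) * yc y with hz
    have hzn : ‖z‖ ≤ ε * s := by
      rw [hz, norm_mul]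
      have := norm_smul_ex (ε * s) ((-1 : ℤ) * thc u) (mul_pos hε h1).le
      rw [Complex.ofReal_mul] at this
      rw [this]
      have := norm_yc_le y
      nlinarith [mul_pos hε h1]
    have hzs : ‖z‖ < 1 / 20 := by nlinarith
    have hz1 := abs_lt.1 (lt_of_le_of_lt (Complex.abs_im_le_norm z) hzs)
    set x : E3 := pt (1 / 2 + z.re) u (1 / 2 + ε * s * (y : E3) 0) with hx
    have hrc : rc x = ((1 / 2 + ε * s * (y : E3) 0 : ℝ) : ℂ) + (u : ℝ) * I := by
      unfold rc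
      rw [hx, pt_one', pt_two']
    have hpc : pc x (1 / 2 + z.im) = z := by
      apply Complex.ext
      · rw [pc_re, hx, pt_zero']; ring
      · rw [pc_im]; ring
    have hfr : ‖fr z‖ < 4 * ε := by
      have := fr_le (z := z) GI_zero
      rw [sub_zero] at this
      nlinarith
    rw [pdH_near N hρ' hδ hG' (by linarith [hz1.1]) (by linarith [hz1.2])
      (Or.inl (by show ‖fr (pc x (1 / 2 + z.im))‖ < ρ; rw [hpc]; linarith))
      (Or.inl (by rw [hpc]; exact hfr)), hrc, hpc]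
  · intro θ x₀ x t hx hC h1 h2 h
    simp only at h
    by_cases hn : Near3 ε x t
    · have hW : (pc x t, rc x) ∈ Wd ρ := by
        rcases hn with h | h
        · exact Or.inl (by show ‖fr (pc x t)‖ < ρ; linarith)
        · exact Or.inr (by show ‖fr (rc x)‖ < ρ; linarith)
      rw [pdH_near N hρ' hδ hG' (by linarith) (by linarith) hW (Or.inr hx.not_latK)] at h
      exact L'.disjT _ _ _ _ (Wd_symm hW) (offAx_iff.1 hx)
        (fun h => hC ((onC_iff (by linarith) (by linarith)).2 h)) h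
    · apply hn
      rw [← pdH_Rg N hε' h5 hρ' hδ hRg hG' h1 h2 hx hC, ← h, ← hRg]
      exact Or.inr (Or.inr ⟨_, _, rfl⟩)
  · intro y x t hx hC h1 h2 h
    by_cases hn : Near3 ε x t
    · have hW : (pc x t, rc x) ∈ Wd ρ := by
        rcases hn with h | h
        · exact Or.inl (by show ‖fr (pc x t)‖ < ρ; linarith)
        · exact Or.inr (by show ‖fr (rc x)‖ < ρ; linarith)
      rw [pdH_near N hρ' hδ hG' (by linarith) (by linarith) hW (Or.inr hx.not_latK)] at h
      exact L'.disjK _ _ _ (Wd_symm hW) (offAx_iff.1 hx)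
        (fun h => hC ((onC_iff (by linarith) (by linarith)).2 h)) h
    · apply hn
      rw [← pdH_Rg N hε' h5 hρ' hδ hRg hG' h1 h2 hx hC, ← h, ← hRg]
      exact Or.inr (Or.inl ⟨_, rfl⟩)
  · intro y θ x₀ h
    exact L'.disjKT _ _ _ h

end

end Pool.Agent.TSK
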