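import Pool.Agent.TSK.CsLS
import Pool.Agent.TS.PDef

/-!
# TSK/CsPD: from normalised surgery data to P-data, using `SwapStatement`
-/

open scoped Manifold ContDiff Topology
open Complex (I)
open Set Filter

namespace Pool.Agent.TSK
open Pool.Agent.TS
open Pool.Agent.CSG

/-- the coordinate `p` -/
noncomputable def pc (x : E3) (t : ℝ) : ℂ := ((x 0 - 1 / 2 : ℝ) : ℂ) + ((t - 1 / 2 : ℝ) : ℂ) * I
/-- the coordinate `r` -/
noncomputable def rc (x : E3) : ℂ := ((x 2 : ℝ) : ℂ) + ((x 1 : ℝ) : ℂ) * I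

theorem pc_re (x : E3) (t : ℝ) : (pc x t).re = x 0 - 1 / 2 := by simp [pc]
theorem pc_im (x : E3) (t : ℝ) : (pc x t).im = t - 1 / 2 := by simp [pc]
theorem rc_re (x : E3) : (rc x).re = x 2 := by simp [rc]
theorem rc_im (x : E3) : (rc x).im = x 1 := by simp [rc]

theorem xP_pc (x : E3) (t : ℝ) : xP (pc x t) (rc x) = x := by
  unfold xP
  rw [pc_re, rc_re, rc_im, add_sub_cancel]
  exact pt_eta x

theorem pc_xP (p r : ℂ) : pc (xP p r) (1 / 2 + p.im) = p := by
  apply Complex.ext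
  · rw [pc_re, xP_zero']; ring
  · rw [pc_im]; ring

theorem rc_xP (p r : ℂ) : rc (xP p r) = r := by
  apply Complex.ext
  · rw [rc_re, xP_two']
  · rw [rc_im, xP_one']

theorem offAx_iff {x : E3} : OffAx x ↔ rc x ∉ GI := by
  unfold OffAx
  rw [not_iff_not, mem_GI, rc_re, rc_im]
  exact and_comm

theorem _root_.Pool.Agent.TS.OffAx.not_latK {x : E3} (h : OffAx x) : ¬ IsLat x := by
  intro hl
  rw [← pt_eta x] at hl
  obtain ⟨_, h1, h2⟩ := isLat_pt.1 hl
  exact h ⟨h1, h2⟩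

theorem pc_mem {x : E3} {t : ℝ} (h1 : -(1 / 8) < t) (h2 : t < 9 / 8) :
    pc x t ∈ GI ↔ t = 1 / 2 ∧ ∃ a : ℤ, x 0 = a + 1 / 2 := by
  rw [mem_GI, pc_re, pc_im]
  constructor
  · rintro ⟨⟨a, ha⟩, ⟨b, hb⟩⟩
    have e1 : (-1 : ℝ) < b := by linarith
    have e2 : (b : ℝ) < 1 := by linarith
    have e3 : (-1 : ℤ) < b := by exact_mod_cast e1
    have e4 : b < (1 : ℤ) := by exact_mod_cast e2
    have e5 : b = 0 := by omega
    rw [e5] at hb
    push_cast at hb
    exact ⟨by linarith, a, by linarith⟩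
  · rintro ⟨h3, a, ha⟩
    exact ⟨⟨a, by linarith⟩, ⟨0, by push_cast; linarith⟩⟩

theorem onC_iff {x : E3} {t : ℝ} (h1 : -(1 / 8) < t) (h2 : t < 9 / 8) :
    OnC x t ↔ OnCK (rc x) (pc x t) := by
  unfold OnC OnCK
  rw [pc_mem h1 h2, rc_re]
  tauto

theorem pc_add_vec (x : E3) (t : ℝ) (m : Fin 3 → ℤ) :
    pc (x + vec m) t = pc x t + ((m 0 : ℤ) : ℂ) := by
  apply Complex.ext
  · rw [pc_re, Complex.add_re, pc_re]
    simp [vec]
    ring
  · rw [pc_im, Complex.add_im, pc_im]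
    simp

theorem rc_add_vec (x : E3) (m : Fin 3 → ℤ) :
    rc (x + vec m) = rc x + (((m 2 : ℤ) : ℂ) + ((m 1 : ℤ) : ℂ) * I) := by
  apply Complex.ext
  · rw [rc_re, Complex.add_re, rc_re]
    simp [vec]
  · rw [rc_im, Complex.add_im, rc_im]
    simp [vec]

theorem int_mem_GI (a : ℤ) : ((a : ℤ) : ℂ) ∈ GI := ⟨a, 0, by simp⟩

theorem fr_rc_add_vec (x : E3) (m : Fin 3 → ℤ) : fr (rc (x + vec m)) = fr (rc x) := by
  rw [rc_add_vec, fr_add (GI_mk _ _)]

theorem pc_add_one (x : E3) (t : ℝ) : pc x (t + 1) = pc x t + I := by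
  apply Complex.ext
  · rw [pc_re, Complex.add_re, pc_re]
    simp
  · rw [pc_im, Complex.add_im, pc_im]
    simp
    ring

theorem I_mem_GI : I ∈ GI := ⟨0, 1, by simp⟩

/-- far from the torus `T` if `t` is near an integer -/
theorem fr_pc_ge {x : E3} {t : ℝ} (h1 : -(1 / 8) ≤ t) (h2 : t ≤ 1 / 8) :
    3 / 8 ≤ ‖fr (pc x t)‖ ∧ 3 / 8 ≤ ‖fr (pc x (t + 1))‖ := by
  have key : 3 / 8 ≤ ‖fr (pc x t)‖ := by
    by_contra h
    push Not at h
    have h3 := (fr_abs_lt h).2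
    rw [fr_im, pc_im] at h3
    have h4 : round (t - 1 / 2) = 0 ∨ round (t - 1 / 2) = -1 := by
      rcases lt_or_ge t 0 with h5 | h5
      · right
        rw [round_eq, Int.floor_eq_iff]
        push_cast
        constructor <;> linarith
      · left
        rw [round_eq, Int.floor_eq_iff]
        push_cast
        constructor <;> linarith
    rw [abs_lt] at h3
    rcases h4 with h4 | h4
    · rw [h4] at h3
      push_cast at h3
      linarith [h3.1]
    · rw [h4] at h3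
      push_cast at h3
      linarith [h3.2]
  refine ⟨key, ?_⟩
  rw [pc_add_one, fr_add I_mem_GI]
  exact key

theorem ne_GI_of_ge {z : ℂ} {c : ℝ} (hc : 0 < c) (h : c ≤ ‖fr z‖) : z ∉ GI := by
  intro hz
  rw [fr_eq_zero.2 hz, norm_zero] at h
  linarith

theorem inv_app (κ : Equiv.Perm E3) (x : E3) : κ⁻¹ (κ x) = x := κ.symm_apply_apply x
theorem app_inv (κ : Equiv.Perm E3) (x : E3) : κ (κ⁻¹ x) = x := κ.apply_symm_apply x

theorem kap_near {A : Matrix (Fin 3) (Fin 3) ℤ} {κ : Equiv.Perm E3} {δ : ℝ} (hA : Mono A κ)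
    (hax : ∀ x, |x 1| < δ → |x 2| < δ → κ x = x) {x : E3} (h : ‖fr (rc x)‖ < δ) :
    ∃ m, κ x = x + vec m := by
  set n : Fin 3 → ℤ := ![0, round (x 1), round (x 2)] with hn
  obtain ⟨h1, h2⟩ := fr_abs_lt h
  rw [fr_re, rc_re] at h1
  rw [fr_im, rc_im] at h2
  set x' : E3 := x - vec n with hx'
  have hxx : x = x' + vec n := by rw [hx', sub_add_cancel]
  have e1 : x' 1 = x 1 - round (x 1) := by
    rw [hx', hn]
    simp [vec]
  have e2 : x' 2 = x 2 - round (x 2) := by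
    rw [hx', hn]
    simp [vec]
  have e3 : κ x' = x' := hax x' (by rw [e1]; exact h2) (by rw [e2]; exact h1)
  refine ⟨A.mulVec n - n, ?_⟩
  rw [hxx, hA.lat, e3, sub_eq_add_neg, vec_add, vec_neg]
  abel

theorem kap_fr {A : Matrix (Fin 3) (Fin 3) ℤ} {κ : Equiv.Perm E3} {δ : ℝ} (hA : Mono A κ)
    (hax : ∀ x, |x 1| < δ → |x 2| < δ → κ x = x) {x : E3} {c : ℝ} (hc : c ≤ δ) :
    ‖fr (rc (κ x))‖ < c ↔ ‖fr (rc x)‖ < c := by
  constructor
  · intro h
    have hax' : ∀ x, |x 1| < δ → |x 2| < δ → κ⁻¹ x = x := by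
      intro y h1 h2
      have := hax y h1 h2
      rw [Equiv.Perm.inv_eq_iff_eq]
      exact this.symm
    obtain ⟨m, hm⟩ := kap_near hA.inv hax' (lt_of_lt_of_le h hc)
    rw [inv_app] at hm
    rw [hm, fr_rc_add_vec]
    exact h
  · intro h
    obtain ⟨m, hm⟩ := kap_near hA hax (lt_of_lt_of_le h hc)
    rw [hm, fr_rc_add_vec]
    exact h

theorem kap_fr' {A : Matrix (Fin 3) (Fin 3) ℤ} {κ : Equiv.Perm E3} {δ : ℝ} (hA : Mono A κ)
    (hax : ∀ x, |x 1| < δ → |x 2| < δ → κ x = x) {x : E3} {c : ℝ} (hc : c ≤ δ) :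
    ‖fr (rc (κ⁻¹ x))‖ < c ↔ ‖fr (rc x)‖ < c := by
  have := kap_fr hA hax (x := κ⁻¹ x) hc
  rw [app_inv] at this
  exact this.symm

section
variable {X : Type*} [TopologicalSpace X] [ChartedSpace E4 X] {φ κ : Equiv.Perm E3}
  {δ ε : ℝ} {k : ℤ}

/-- near the axis the time `t` and `t + 1` agree -/
theorem KL_shift {S : Surg φ X} (N : Nrm S κ δ ε k) {x : E3} (hx : ¬ IsLat x) {t : ℝ}
    (h1 : -(2 / 5) ≤ t) (h2 : t ≤ 2 / 5) (h : ‖fr (rc x)‖ < δ) : KL S x (t + 1) = KL S x t := by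
  obtain ⟨A, hA⟩ := N.mono
  obtain ⟨m, hm⟩ := kap_near hA N.axis h
  rw [← KL_mon N hx h1 h2, hm, KL_per S hx]

/-- `csG` and `KL` -/
theorem csG_KL {S : Surg φ X} (N : Nrm S κ δ ε k) {ρ : ℝ} (hρ' : ρ ≤ 1 / 8) (hδ : ρ ≤ δ)
    {x : E3} {t : ℝ} (h1 : -(1 / 8) < t) (h2 : t < 9 / 8)
    (hW : (pc x t, rc x) ∈ Wd ρ) (hx : ¬ IsLat x) : csG S (pc x t, rc x) = KL S x t := by
  have hC : ¬ OnCK (pc x t) (rc x) := by rw [onCK_iff, xP_pc]; exact hx
  have hnear : t < 0 ∨ 1 ≤ t → ‖fr (rc x)‖ < δ := by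
    intro h
    rcases hW with h4 | h4
    · exfalso
      rcases h with h | h
      · have := (fr_pc_ge (x := x) (t := t) (by linarith) (by linarith)).1
        simp only at h4
        linarith
      · have := (fr_pc_ge (x := x) (t := t - 1) (by linarith) (by linarith)).2
        rw [sub_add_cancel] at this
        simp only at h4
        linarith
    · exact lt_of_lt_of_le h4 hδ
  rcases lt_or_ge t 1 with h3 | h3
  · have := csG_eq_neg N hC 0 (by rw [pc_im]; push_cast; linarith) (by rw [pc_im]; push_cast; linarith)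
      (by
        rw [pc_im]
        push_cast
        intro h
        exact hnear (Or.inl (by linarith)))
    rw [this, xP_pc, pc_im]
    congr 1
    push_cast
    ring
  · have := csG_eq S hC 1 (by rw [pc_im]; push_cast; linarith) (by rw [pc_im]; push_cast; linarith)
    rw [this, xP_pc, pc_im]
    have h4 := KL_shift N hx (t := t - 1) (by linarith) (by linarith) (hnear (Or.inr h3))
    rw [sub_add_cancel] at h4
    rw [h4]
    congr 1
    push_cast
    ring

/-- the map `H` of the P-data -/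
noncomputable def pdH (S : Surg φ X) {ρ : ℝ} {k e : ℤ} (L' : LS ε ρ e k X) (a : E3 × ℝ) : X :=
  open Classical in
  if ‖fr (pc a.1 a.2)‖ < 4 * ε ∨ ‖fr (rc a.1)‖ < 4 * ε then L'.G (rc a.1, pc a.1 a.2)
  else KL S a.1 a.2

theorem Wd_symm {ρ : ℝ} {p r : ℂ} (h : (p, r) ∈ Wd ρ) : (r, p) ∈ Wd ρ := Or.symm h

section
variable {S : Surg φ X} (N : Nrm S κ δ ε k) {ρ : ℝ} (hε' : ε ≤ 1 / 1000)
  (h5 : 5 * ε < ρ) (hρ' : ρ ≤ 1 / 8) (hδ : ρ ≤ δ) {L' : LS ε ρ (-1) (-k) X}
  (hRg : L'.Rg = (csLS N hε' hρ' hδ).Rg)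
  (hG : ∀ p r, (p, r) ∈ Wd ρ → 3 * ε ≤ ‖fr p‖ → 3 * ε ≤ ‖fr r‖ → L'.G (r, p) = csG S (p, r))

include N hρ' hδ hG in
theorem pdH_near {x : E3} {t : ℝ} (h1 : -(1 / 8) < t) (h2 : t < 9 / 8)
    (hW : (pc x t, rc x) ∈ Wd ρ) (hx : ‖fr (pc x t)‖ < 4 * ε ∨ ¬ IsLat x) :
    pdH S L' (x, t) = L'.G (rc x, pc x t) := by
  unfold pdH
  simp only
  split_ifs with h
  · rfl
  · push Not at h
    have hε := N.εpos
    have hx' : ¬ IsLat x := by
      rcases hx with hx | hx
      · exact absurd hx (not_lt.2 h.1)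
      · exact hx
    rw [hG _ _ hW (by linarith [h.1]) (by linarith [h.2]), csG_KL N hρ' hδ h1 h2 hW hx']

include N h5 hρ' hδ hG in
theorem pdH_far {x : E3} {t : ℝ} (h1 : -(1 / 8) < t) (h2 : t < 9 / 8)
    (hp : 3 * ε ≤ ‖fr (pc x t)‖) (hr : 3 * ε ≤ ‖fr (rc x)‖) (hx : ¬ IsLat x) :
    pdH S L' (x, t) = KL S x t := by
  unfold pdH
  simp only
  split_ifs with h
  · have hε := N.εpos
    have hW : (pc x t, rc x) ∈ Wd ρ := by
      rcases h with h | h
      · exact Or.inl (by show ‖fr (pc x t)‖ < ρ; linarith)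
      · exact Or.inr (by show ‖fr (rc x)‖ < ρ; linarith)
    rw [hG _ _ hW hp hr, csG_KL N hρ' hδ h1 h2 hW hx]
  · rfl

include N hε' h5 hρ' hδ in
/-- a far point is not in the region near the tori -/
theorem far_not_Rg {x : E3} {t : ℝ} (h1 : 0 ≤ t) (h2 : t ≤ 1)
    (hp : 3 * ε ≤ ‖fr (pc x t)‖) (hr : 3 * ε ≤ ‖fr (rc x)‖) :
    KL S x t ∉ (csLS N hε' hρ' hδ).Rg := by
  have hε := N.εpos
  obtain ⟨A, hA⟩ := N.mono
  -- reduce to `0 < t`
  have key : ∀ (x : E3) (t : ℝ), 0 < t → t ≤ 1 → 3 * ε ≤ ‖fr (pc x t)‖ → 3 * ε ≤ ‖fr (rc x)‖ →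
      KL S x t ∉ (csLS N hε' hρ' hδ).Rg := by
    intro x t h1 h2 hp hr hmem
    have hpG : pc x t ∉ GI := ne_GI_of_ge (by linarith) hp
    have hrG : rc x ∉ GI := ne_GI_of_ge (by linarith) hr
    have hx : ¬ IsLat x := (offAx_iff.2 hrG).not_latK
    have hnp : NP (x 0) t := by
      have := (NP_iff (pc x t) 0 (by rw [pc_im]; push_cast; linarith)
        (by rw [pc_im]; push_cast; linarith)).2 hpG
      rw [pc_re, pc_im] at this
      have e1 : (1 / 2 + (x 0 - 1 / 2) : ℝ) = x 0 := by ring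
      have e2 : (1 / 2 + (t - 1 / 2) - ((0 : ℤ) : ℝ) : ℝ) = t := by push_cast; ring
      rwa [e1, e2] at this
    rcases hmem with ⟨p, r, hpr, hp0, hC0, hq⟩ | ⟨y, hq⟩ | ⟨q₀, y, hq⟩
    · have hW : (p, r) ∈ Wd ρ := by
        rcases hpr with h | h
        · exact Or.inl (by show ‖fr p‖ < ρ; linarith)
        · exact Or.inr (by show ‖fr r‖ < ρ; linarith)
      have hq' : KL S x t = csG S (p, r) := hq
      obtain ⟨s, s0, s1, sn, se, m, hm⟩ := csG_rep N hρ' hδ hW hp0 hC0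
      rw [se] at hq'
      have hx' : ¬ IsLat (xP p r) := by rw [← onCK_iff]; exact hC0
      obtain ⟨h3, n, hn⟩ := KL_inj N hx hx' h1 h2 s0 s1 hnp sn hq'
      have e1 : fr p = fr (pc x t) := by
        have : p = pc x t + (((n 0 : ℤ) : ℂ) + ((m : ℤ) : ℂ) * I) := by
          have g := congrArg (fun z : E3 => z 0) hn
          simp only [xP_zero', PiLp.add_apply, vec] at g
          apply Complex.ext
          · rw [Complex.add_re, pc_re]
            simp
            linarith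
          · rw [Complex.add_im, pc_im]
            simp
            linarith
        rw [this, fr_add (GI_mk _ _)]
      have e2 : fr r = fr (rc x) := by
        have := congrArg rc hn
        rw [rc_xP] at this
        rw [this, fr_rc_add_vec]
      rw [e1, e2] at hpr
      rcases hpr with h | h <;> linarith
    · have hq' : KL S x t = csK S (y, 0) := hq
      obtain ⟨a, h3, h4⟩ := KL_val S hx hnp
      rw [h4] at hq'
      unfold csK at hq'
      simp only [neg_zero] at hq'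
      exact S.disj _ _ _ h3 hq'.symm
    · have hq' : KL S x t = csT S ε (q₀, y, 0) := hq
      apply KL_notT N hx h1 h2 hnp
      rw [hq']
      refine ⟨Int.fract q₀ - 1 / 4, Int.fract y, ?_⟩
      unfold csT ptT
      simp
  rcases h1.lt_or_eq with h3 | h3
  · exact key x t h3 h2 hp hr
  · subst h3
    have hrG : rc x ∉ GI := ne_GI_of_ge (by linarith) hr
    have hx : ¬ IsLat x := (offAx_iff.2 hrG).not_latK
    have hx' : ¬ IsLat (κ⁻¹ x) := fun h => hx ((hA.inv.isLat x).1 h)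
    have e1 : KL S x 0 = KL S (κ⁻¹ x) 1 := by
      have := KL_mon N hx' (t := 0) (by norm_num) (by norm_num)
      rw [app_inv, zero_add] at this
      exact this
    rw [e1]
    apply key _ _ one_pos le_rfl
    · have := (fr_pc_ge (x := κ⁻¹ x) (t := 0) (by norm_num) (by norm_num)).2
      rw [zero_add] at this
      linarith
    · by_contra h
      push Not at h
      rw [kap_fr' hA N.axis (by linarith)] at h
      linarith

end

end

end Pool.Agent.TSK
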