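import Pool.Agent.CSG.Isots
import Pool.Agent.TSK.CsPD

/-!
# TSK/IsotB: operations on isotopies
-/

open scoped Manifold ContDiff Topology
open Set Filter

namespace Pool.Agent.TSK
open Pool.Agent.TS
open Pool.Agent.CSG

/-- bound of the linear part of an isotopy, for all times -/
theorem isot_bound (Ψ : Isot) : ∃ ε > 0, ∃ L : ℝ → E3 ≃L[ℝ] E3,
    (ContDiff ℝ ∞ fun q : ℝ × E3 => L q.1 q.2) ∧ (∀ t x, ‖x‖ < ε → Ψ.ψ t x = L t x) ∧
    ∃ K > 0, ∀ t x, ‖L t x‖ ≤ K * ‖x‖ := by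
  obtain ⟨ε, hε, L, hLs, hL⟩ := Ψ.lin
  refine ⟨ε, hε, L, hLs, hL, ?_⟩
  have hc := SIsot_clm hLs
  obtain ⟨K, hK, hKb⟩ := SIsot_bound hc.continuous (1 / 4) 1
  have hall : ∀ t, ‖(L t : E3 →L[ℝ] E3)‖ ≤ K := by
    intro t
    rcases le_total t (1 / 4) with h1 | h1
    · have e1 : (L t : E3 →L[ℝ] E3) = (L (1 / 4) : E3 →L[ℝ] E3) := by
        apply SIsot_lin_eq hε
        intro x hx
        have a := hL t x hx
        have b := hL (1 / 4) x hx
        rw [Ψ.start t h1] at a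
        rw [Ψ.start _ le_rfl] at b
        exact a.symm.trans b
      rw [e1]
      exact hKb _ ⟨le_rfl, by norm_num⟩
    · rcases le_total t 1 with h2 | h2
      · exact hKb _ ⟨h1, h2⟩
      · have e1 : (L t : E3 →L[ℝ] E3) = (L 1 : E3 →L[ℝ] E3) := by
          apply SIsot_lin_eq hε
          intro x hx
          have a := hL t x hx
          have b := hL 1 x hx
          rw [Ψ.stop t (by linarith)] at a
          exact a.symm.trans b
        rw [e1]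
        exact hKb _ ⟨by norm_num, le_rfl⟩
  refine ⟨K, hK, fun t x => ?_⟩
  exact ((L t : E3 →L[ℝ] E3).le_opNorm x).trans
    (mul_le_mul_of_nonneg_right (hall t) (norm_nonneg x))

theorem isot_mul (Ψ Ψ' : Isot) : ∃ Ω : Isot, ∀ t, Ω.ψ t = Ψ.ψ t * Ψ'.ψ t := by
  obtain ⟨ε, hε, L, hLs, hL⟩ := Ψ.lin
  obtain ⟨ε', hε', L', hLs', hL', K, hK, hKb⟩ := isot_bound Ψ'
  refine ⟨⟨fun t => Ψ.ψ t * Ψ'.ψ t, ?_, ?_, ?_, ?_, ?_, ?_⟩, fun t => rfl⟩
  · show ContDiff ℝ ∞ fun q : E3 × ℝ => Ψ.ψ q.2 (Ψ'.ψ q.2 q.1)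
    exact Ψ.smooth.comp (Ψ'.smooth.prodMk contDiff_snd)
  · show ContDiff ℝ ∞ fun q : E3 × ℝ => (Ψ'.ψ q.2).symm ((Ψ.ψ q.2).symm q.1)
    exact Ψ'.smooth_symm.comp (Ψ.smooth_symm.prodMk contDiff_snd)
  · intro t x m
    show Ψ.ψ t (Ψ'.ψ t (x + vec m)) = Ψ.ψ t (Ψ'.ψ t x) + vec m
    rw [Ψ'.lat, Ψ.lat]
  · intro t ht
    show Ψ.ψ t * Ψ'.ψ t = 1
    rw [Ψ.start t ht, Ψ'.start t ht, one_mul]
  · intro t ht
    show Ψ.ψ t * Ψ'.ψ t = Ψ.ψ 1 * Ψ'.ψ 1
    rw [Ψ.stop t ht, Ψ'.stop t ht]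
  · refine ⟨min ε' (ε / K), lt_min hε' (by positivity), fun t => (L' t).trans (L t), ?_, ?_⟩
    · show ContDiff ℝ ∞ fun q : ℝ × E3 => L q.1 (L' q.1 q.2)
      exact hLs.comp (contDiff_fst.prodMk hLs')
    · intro t x hx
      show Ψ.ψ t (Ψ'.ψ t x) = L t (L' t x)
      have h1 : ‖x‖ < ε' := hx.trans_le (min_le_left _ _)
      have h2 : ‖x‖ < ε / K := hx.trans_le (min_le_right _ _)
      rw [hL' t x h1, hL]
      calc ‖L' t x‖ ≤ K * ‖x‖ := hKb t x
        _ < K * (ε / K) := by gcongr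
        _ = ε := by field_simp

/-- conjugation by a linear monodromy -/
theorem isot_conj {A : Matrix (Fin 3) (Fin 3) ℤ} {a : Equiv.Perm E3} (ha : Mono A a)
    (hal : ∀ x, a x = act A x) (Ψ : Isot) : ∃ Ω : Isot, ∀ t, Ω.ψ t = a⁻¹ * Ψ.ψ t * a := by
  obtain ⟨ε, hε, L, hLs, hL⟩ := Ψ.lin
  obtain ⟨CL, hCL, hCL'⟩ := Isots_exists_clm hal
  refine ⟨⟨fun t => a⁻¹ * Ψ.ψ t * a, ?_, ?_, ?_, ?_, ?_, ?_⟩, fun t => rfl⟩
  · show ContDiff ℝ ∞ fun q : E3 × ℝ => a.symm (Ψ.ψ q.2 (a q.1))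
    exact ha.smooth_symm.comp (Ψ.smooth.comp ((ha.smooth.comp contDiff_fst).prodMk contDiff_snd))
  · show ContDiff ℝ ∞ fun q : E3 × ℝ => a.symm ((Ψ.ψ q.2).symm (a q.1))
    exact ha.smooth_symm.comp
      (Ψ.smooth_symm.comp ((ha.smooth.comp contDiff_fst).prodMk contDiff_snd))
  · intro t x m
    show a.symm (Ψ.ψ t (a (x + vec m))) = a.symm (Ψ.ψ t (a x)) + vec m
    rw [ha.lat, Ψ.lat, Equiv.symm_apply_eq, ha.lat, Equiv.apply_symm_apply]
  · intro t ht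
    show a⁻¹ * Ψ.ψ t * a = 1
    rw [Ψ.start t ht]
    simp
  · intro t ht
    show a⁻¹ * Ψ.ψ t * a = a⁻¹ * Ψ.ψ 1 * a
    rw [Ψ.stop t ht]
  · set N : ℝ := ‖(CL : E3 →L[ℝ] E3)‖ with hN
    have hN0 : 0 ≤ N := norm_nonneg _
    refine ⟨ε / (N + 1), by positivity, fun t => CL.trans ((L t).trans CL.symm), ?_, ?_⟩
    · show ContDiff ℝ ∞ fun q : ℝ × E3 => CL.symm (L q.1 (CL q.2))
      exact CL.symm.contDiff.comp
        (hLs.comp (contDiff_fst.prodMk (CL.contDiff.comp contDiff_snd)))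
    · intro t x hx
      show a.symm (Ψ.ψ t (a x)) = CL.symm (L t (CL x))
      have h1 : ‖CL x‖ < ε := by
        have h2 : ‖CL x‖ ≤ N * ‖x‖ := (CL : E3 →L[ℝ] E3).le_opNorm x
        have h3 : ‖x‖ * (N + 1) < ε := (lt_div_iff₀ (by positivity)).1 hx
        nlinarith [norm_nonneg x]
      rw [hCL', hCL] at *
      rw [hL t _ h1]

/-- the shear `x 0 += f (x 2)`, `x 1 += g (x 2)` -/
noncomputable def sh2 (f g : ℝ → ℝ) : Equiv.Perm E3 where
  toFun x := pt (x 0 + f (x 2)) (x 1 + g (x 2)) (x 2)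
  invFun x := pt (x 0 - f (x 2)) (x 1 - g (x 2)) (x 2)
  left_inv x := by
    ext i; fin_cases i <;> simp [pt]
  right_inv x := by
    ext i; fin_cases i <;> simp [pt]

theorem sh2_apply (f g : ℝ → ℝ) (x : E3) :
    sh2 f g x = pt (x 0 + f (x 2)) (x 1 + g (x 2)) (x 2) := rfl

theorem sh2_symm_apply (f g : ℝ → ℝ) (x : E3) :
    (sh2 f g).symm x = pt (x 0 - f (x 2)) (x 1 - g (x 2)) (x 2) := rfl

theorem sh2_inv_apply (f g : ℝ → ℝ) (x : E3) :
    (sh2 f g)⁻¹ x = pt (x 0 - f (x 2)) (x 1 - g (x 2)) (x 2) := rfl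

theorem sh2_mul (f g f' g' : ℝ → ℝ) :
    sh2 f g * sh2 f' g' = sh2 (fun y => f y + f' y) (fun y => g y + g' y) := by
  ext x i
  fin_cases i
  · simp [sh2]; ring
  · simp [sh2]; ring
  · simp [sh2]

theorem sh2_mono {f g : ℝ → ℝ} (hf : ContDiff ℝ ∞ f) (hg : ContDiff ℝ ∞ g) (p q : ℤ)
    (hfp : ∀ y (b : ℤ), f (y + b) = f y + b * p) (hgp : ∀ y (b : ℤ), g (y + b) = g y + b * q)
    (hf0 : f 0 = 0) (hg0 : g 0 = 0) : Mono !![1, 0, p; 0, 1, q; 0, 0, 1] (sh2 f g) := by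
  have c0 : ContDiff ℝ ∞ fun x : E3 => x 0 := FunBasic_coord 0
  have c1 : ContDiff ℝ ∞ fun x : E3 => x 1 := FunBasic_coord 1
  have c2 : ContDiff ℝ ∞ fun x : E3 => x 2 := FunBasic_coord 2
  refine ⟨?_, ?_, ?_, ?_, ?_⟩
  · exact FunBasic_pt (c0.add (hf.comp c2)) (c1.add (hg.comp c2)) c2
  · exact FunBasic_pt (c0.sub (hf.comp c2)) (c1.sub (hg.comp c2)) c2
  · intro x m
    have h1 := hfp (x 2) (m 2)
    have h2 := hgp (x 2) (m 2)
    ext i
    fin_cases i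
    · simp [sh2, vec, Matrix.mulVec, dotProduct, Fin.sum_univ_three, h1]
      ring
    · simp [sh2, vec, Matrix.mulVec, dotProduct, Fin.sum_univ_three, h2]
      ring
    · simp [sh2, vec, Matrix.mulVec, dotProduct, Fin.sum_univ_three]
  · ext i
    fin_cases i <;> simp [sh2, hf0, hg0]
  · rw [Matrix.det_fin_three]
    simp

/-- linear shear -/
noncomputable def sh2L (p q : ℝ) : E3 ≃L[ℝ] E3 :=
  ({ toFun := fun z => pt (z 0 + p * z 2) (z 1 + q * z 2) (z 2)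
     invFun := fun z => pt (z 0 - p * z 2) (z 1 - q * z 2) (z 2)
     left_inv := fun z => by ext i; fin_cases i <;> simp [pt]
     right_inv := fun z => by ext i; fin_cases i <;> simp [pt]
     map_add' := fun x y => by
      ext i; fin_cases i
      · simp [pt]; ring
      · simp [pt]; ring
      · simp [pt]
     map_smul' := fun a x => by
      ext i; fin_cases i
      · simp [pt]; ring
      · simp [pt]; ring
      · simp [pt] } : E3 ≃ₗ[ℝ] E3).toContinuousLinearEquiv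

theorem sh2L_apply (p q : ℝ) (z : E3) : sh2L p q z = pt (z 0 + p * z 2) (z 1 + q * z 2) (z 2) := rfl

/-- isotopy of a periodic shear, linear near `0` -/
theorem isot_sh2 {f g : ℝ → ℝ} (hf : ContDiff ℝ ∞ f) (hg : ContDiff ℝ ∞ g) (p q : ℝ) {η : ℝ}
    (hη : 0 < η) (hfp : ∀ y (b : ℤ), f (y + b) = f y) (hgp : ∀ y (b : ℤ), g (y + b) = g y)
    (hf0 : ∀ y, |y| < η → f y = p * y) (hg0 : ∀ y, |y| < η → g y = q * y) :
    ∃ Ω : Isot, Ω.ψ 1 = sh2 f g := by
  set s : ℝ → ℝ := stp (1 / 4) (3 / 4) with hs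
  have hss : ContDiff ℝ ∞ s := stp_smooth _ _
  have hs1 : s 1 = 1 := stp_one (by norm_num) (by norm_num)
  have c0 : ContDiff ℝ ∞ fun q : E3 × ℝ => q.1 0 := Isots_coord_smooth contDiff_fst 0
  have c1 : ContDiff ℝ ∞ fun q : E3 × ℝ => q.1 1 := Isots_coord_smooth contDiff_fst 1
  have c2 : ContDiff ℝ ∞ fun q : E3 × ℝ => q.1 2 := Isots_coord_smooth contDiff_fst 2
  have cs : ContDiff ℝ ∞ fun q : E3 × ℝ => s q.2 := hss.comp contDiff_snd
  refine ⟨⟨fun t => sh2 (fun y => s t * f y) (fun y => s t * g y), ?_, ?_, ?_, ?_, ?_, ?_⟩, ?_⟩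
  · show ContDiff ℝ ∞ fun q : E3 × ℝ =>
      pt (q.1 0 + s q.2 * f (q.1 2)) (q.1 1 + s q.2 * g (q.1 2)) (q.1 2)
    exact Isots_pt_smooth (c0.add (cs.mul (hf.comp c2))) (c1.add (cs.mul (hg.comp c2))) c2
  · show ContDiff ℝ ∞ fun q : E3 × ℝ =>
      pt (q.1 0 - s q.2 * f (q.1 2)) (q.1 1 - s q.2 * g (q.1 2)) (q.1 2)
    exact Isots_pt_smooth (c0.sub (cs.mul (hf.comp c2))) (c1.sub (cs.mul (hg.comp c2))) c2
  · intro t x m
    have e2 : (x + vec m) 2 = x 2 + (m 2 : ℤ) := rfl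
    rw [sh2_apply, sh2_apply, e2, hfp, hgp]
    ext i
    fin_cases i
    · simp [pt, vec]; ring
    · simp [pt, vec]; ring
    · simp [pt, vec]
  · intro t ht
    have : s t = 0 := stp_zero (by norm_num) ht
    ext1 x
    rw [sh2_apply, this]
    show _ = x
    rw [zero_mul, zero_mul, add_zero, add_zero, pt_eta]
  · intro t ht
    have : s t = 1 := stp_one (by norm_num) ht
    simp only [this, hs1]
  · refine ⟨η, hη, fun t => sh2L (s t * p) (s t * q), ?_, ?_⟩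
    · have d0 : ContDiff ℝ ∞ fun q : ℝ × E3 => q.2 0 := Isots_coord_smooth contDiff_snd 0
      have d1 : ContDiff ℝ ∞ fun q : ℝ × E3 => q.2 1 := Isots_coord_smooth contDiff_snd 1
      have d2 : ContDiff ℝ ∞ fun q : ℝ × E3 => q.2 2 := Isots_coord_smooth contDiff_snd 2
      have ds : ContDiff ℝ ∞ fun q : ℝ × E3 => s q.1 := hss.comp contDiff_fst
      simp only [sh2L_apply]
      exact Isots_pt_smooth (d0.add ((ds.mul contDiff_const).mul d2))
        (d1.add ((ds.mul contDiff_const).mul d2)) d2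
    · intro t x hx
      have h2 : |x 2| < η := lt_of_le_of_lt (by simpa using PiLp.norm_apply_le x 2) hx
      rw [sh2_apply, sh2L_apply, hf0 _ h2, hg0 _ h2]
      congr 1 <;> ring
  · show sh2 (fun y => s 1 * f y) (fun y => s 1 * g y) = sh2 f g
    rw [hs1]
    simp only [one_mul]

/-- isotopy of the shear `x 1 += k (lam (x 0) - x 0)` -/
theorem isot_lam (k : ℤ) : ∃ Ω : Isot, Ω.ψ 1 = sh (fun y _ => k * (lam y - y)) := by
  set s : ℝ → ℝ := stp (1 / 4) (3 / 4) with hs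
  have hss : ContDiff ℝ ∞ s := stp_smooth _ _
  have hs1 : s 1 = 1 := stp_one (by norm_num) (by norm_num)
  have c0 : ContDiff ℝ ∞ fun q : E3 × ℝ => q.1 0 := Isots_coord_smooth contDiff_fst 0
  have c1 : ContDiff ℝ ∞ fun q : E3 × ℝ => q.1 1 := Isots_coord_smooth contDiff_fst 1
  have c2 : ContDiff ℝ ∞ fun q : E3 × ℝ => q.1 2 := Isots_coord_smooth contDiff_fst 2
  have cs : ContDiff ℝ ∞ fun q : E3 × ℝ => s q.2 := hss.comp contDiff_snd
  refine ⟨⟨fun t => sh (fun y _ => s t * (k * (lam y - y))), ?_, ?_, ?_, ?_, ?_, ?_⟩, ?_⟩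
  · show ContDiff ℝ ∞ fun q : E3 × ℝ =>
      pt (q.1 0) (q.1 1 + s q.2 * (k * (lam (q.1 0) - q.1 0))) (q.1 2)
    exact Isots_pt_smooth c0 (c1.add (cs.mul (contDiff_const.mul ((lam_smooth.comp c0).sub c0)))) c2
  · show ContDiff ℝ ∞ fun q : E3 × ℝ =>
      pt (q.1 0) (q.1 1 - s q.2 * (k * (lam (q.1 0) - q.1 0))) (q.1 2)
    exact Isots_pt_smooth c0 (c1.sub (cs.mul (contDiff_const.mul ((lam_smooth.comp c0).sub c0)))) c2
  · intro t x m
    have e0 : (x + vec m) 0 = x 0 + (m 0 : ℤ) := rfl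
    show pt ((x + vec m) 0) ((x + vec m) 1 + s t * (k * (lam ((x + vec m) 0) - (x + vec m) 0)))
      ((x + vec m) 2) = pt (x 0) (x 1 + s t * (k * (lam (x 0) - x 0))) (x 2) + vec m
    rw [e0, lam_add_int]
    ext i
    fin_cases i
    · simp [pt, vec]
    · simp [pt, vec]; ring
    · simp [pt, vec]
  · intro t ht
    have : s t = 0 := stp_zero (by norm_num) ht
    ext1 x
    show pt (x 0) (x 1 + s t * (k * (lam (x 0) - x 0))) (x 2) = x
    rw [this, zero_mul, add_zero, pt_eta]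
  · intro t ht
    have : s t = 1 := stp_one (by norm_num) ht
    simp only [this, hs1]
  · refine ⟨9 / 20, by norm_num, fun t => Isots_shL (-(s t * k)), ?_, ?_⟩
    · have d0 : ContDiff ℝ ∞ fun q : ℝ × E3 => q.2 0 := Isots_coord_smooth contDiff_snd 0
      have d1 : ContDiff ℝ ∞ fun q : ℝ × E3 => q.2 1 := Isots_coord_smooth contDiff_snd 1
      have d2 : ContDiff ℝ ∞ fun q : ℝ × E3 => q.2 2 := Isots_coord_smooth contDiff_snd 2
      have ds : ContDiff ℝ ∞ fun q : ℝ × E3 => s q.1 := hss.comp contDiff_fst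
      simp only [Isots_shL_apply]
      exact Isots_pt_smooth d0 (d1.add ((ds.mul contDiff_const).neg.mul d0)) d2
    · intro t x hx
      have h0 : |x 0| < 9 / 20 := lt_of_le_of_lt (by simpa using PiLp.norm_apply_le x 0) hx
      have hl : lam (x 0) = 0 := lam_zero (by linarith [neg_abs_le (x 0)])
        (by linarith [le_abs_self (x 0)])
      show pt (x 0) (x 1 + s t * (k * (lam (x 0) - x 0))) (x 2) = _
      rw [Isots_shL_apply, hl]
      congr 1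
      ring
  · show sh (fun y _ => s 1 * (k * (lam y - y))) = _
    rw [hs1]
    simp only [one_mul]

/-- the adapted monodromies are compatible with `AxMono` -/
theorem axMono_of {A : Matrix (Fin 3) (Fin 3) ℤ} {κ : Equiv.Perm E3} {δ : ℝ} (hA : Mono A κ)
    (hδ : 0 < δ) (hax : ∀ x, |x 1| < δ → |x 2| < δ → κ x = x) : AxMono κ δ where
  mono := ⟨A, hA⟩
  pos := hδ
  axis := hax
  off x := by
    rw [offAx_iff, offAx_iff, not_iff_not]
    have hax' : ∀ x, |x 1| < δ → |x 2| < δ → κ⁻¹ x = x := by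
      intro y h1 h2
      rw [Equiv.Perm.inv_eq_iff_eq]
      exact (hax y h1 h2).symm
    constructor
    · intro h
      have h0 : ‖fr (rc (κ x))‖ < δ := by rw [fr_eq_zero.2 h, norm_zero]; exact hδ
      obtain ⟨m, hm⟩ := kap_near hA.inv hax' h0
      rw [inv_app] at hm
      rw [hm, rc_add_vec]
      exact GI_add h (GI_mk _ _)
    · intro h
      have h0 : ‖fr (rc x)‖ < δ := by rw [fr_eq_zero.2 h, norm_zero]; exact hδ
      obtain ⟨m, hm⟩ := kap_near hA hax h0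
      rw [hm, rc_add_vec]
      exact GI_add h (GI_mk _ _)

end Pool.Agent.TSK
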