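import Pool.Agent.CSG.FFp

/-!
# TSK/FL: the function `FL`, a variant of `FF` which is linear near the puncture
-/

open scoped ContDiff Topology
open Complex (I)
open Set Filter

namespace Pool.Agent.TSK
open Pool.Agent.CSG

/-- the model function near the puncture -/
noncomputable def F1 (y t : ℝ) : ℂ :=
  (t - 1 / 2 + bt y : ℝ) - ((1 - bt y) * (Int.fract y - 1 / 2) : ℝ) * I

/-- smooth function on the `(y, t)`-plane, with zeros exactly at the punctures `t = 1/2`,
`fract y = 1/2`; `= 1` for `t ≥ 3/5`, `= exp (2πi lam y)` for `t ≤ 2/5`, and positive if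
`fract y ≤ 3/10` or `fract y ≥ 7/10`; linear near the punctures. -/
noncomputable def FL (y t : ℝ) : ℂ :=
  (1 - kp t - km t : ℝ) * F1 y t + (kp t : ℝ) +
    (km t : ℝ) * Complex.exp ((2 * Real.pi * lam y : ℝ) * I)

theorem FL_fr_smooth : ContDiff ℝ ∞ fun y : ℝ =>
    (1 - bt y) * (Int.fract y - 1 / 2) := by
  apply FFp_smooth_of (fun x => (1 - stp (1 / 100) (1 / 25) ((x - 1 / 2) ^ 2)) *
    (x - 1 / 2)) ?_ 0
  · intro x _ hx
    simp only [FFp_bt_one (x := x) (Or.inl (by linarith))]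
    ring
  · intro x hx _
    simp only [FFp_bt_one (x := x) (Or.inr (by linarith))]
    ring
  · apply ContDiff.mul
    · exact contDiff_const.sub ((stp_smooth _ _).comp ((contDiff_id.sub contDiff_const).pow 2))
    · exact contDiff_id.sub contDiff_const

theorem FL_smooth : ContDiff ℝ ∞ fun q : ℝ × ℝ => FL q.1 q.2 := by
  unfold FL F1
  have hkp : ContDiff ℝ ∞ fun q : ℝ × ℝ => kp q.2 := FFp_kp_smooth.comp contDiff_snd
  have hkm : ContDiff ℝ ∞ fun q : ℝ × ℝ => km q.2 := FFp_km_smooth.comp contDiff_snd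
  have hbt : ContDiff ℝ ∞ fun q : ℝ × ℝ => bt q.1 := bt_smooth.comp contDiff_fst
  have hlam : ContDiff ℝ ∞ fun q : ℝ × ℝ => lam q.1 := lam_smooth.comp contDiff_fst
  have hsh : ContDiff ℝ ∞ fun q : ℝ × ℝ =>
    (1 - bt q.1) * (Int.fract q.1 - 1 / 2) :=
    FL_fr_smooth.comp contDiff_fst
  have hsin : ContDiff ℝ ∞ fun q : ℝ × ℝ => q.2 - 1 / 2 + bt q.1 :=
    (contDiff_snd.sub contDiff_const).add hbt
  apply ContDiff.add
  · apply ContDiff.add
    · apply ContDiff.mul
      · exact FFp_ofReal ((contDiff_const.sub hkp).sub hkm)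
      · apply ContDiff.sub
        · exact FFp_ofReal hsin
        · exact (FFp_ofReal hsh).mul contDiff_const
    · exact FFp_ofReal hkp
  · apply ContDiff.mul
    · exact FFp_ofReal hkm
    · exact Complex.contDiff_exp.comp ((FFp_ofReal (contDiff_const.mul hlam)).mul contDiff_const)

theorem FL_per (y t : ℝ) (m : ℤ) : FL (y + m) t = FL y t := by
  unfold FL F1 bt
  rw [Int.fract_add_intCast, lam_add_int, FFp_exp_int]

theorem FL_hi {t : ℝ} (h : 3 / 5 ≤ t) (y : ℝ) : FL y t = 1 := by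
  unfold FL
  rw [FFp_km_zero (by linarith), show kp t = 1 from stp_one (by norm_num) h]
  simp

theorem FL_lo {t : ℝ} (h : t ≤ 2 / 5) (y : ℝ) :
    FL y t = Complex.exp ((2 * Real.pi * lam y : ℝ) * I) := by
  have hkm : km t = 1 := by
    unfold km
    rw [stp_zero (by norm_num) h]
    ring
  unfold FL
  rw [FFp_kp_zero (by linarith), hkm]
  simp

theorem FL_side {y : ℝ} (h : Int.fract y ≤ 3 / 10 ∨ 7 / 10 ≤ Int.fract y) (t : ℝ) :
    ∃ c : ℝ, 0 < c ∧ FL y t = c := by
  have hbt : bt y = 1 := FFp_bt_one h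
  rcases le_or_gt t (2 / 5) with h8 | h8
  · exact ⟨1, one_pos, by rw [FL_lo h8, FFp_exp_lam h]; simp⟩
  rcases le_or_gt (3 / 5) t with h9 | h9
  · exact ⟨1, one_pos, by rw [FL_hi h9]; simp⟩
  refine ⟨(1 - kp t - km t) * (t - 1 / 2 + 1) + kp t + km t, ?_, ?_⟩
  · obtain ⟨h1, h2, h3⟩ := FFp_k_mem t
    rcases eq_or_lt_of_le h3 with h4 | h4
    · rw [← h4]
      linarith
    · have := mul_pos h4 (by linarith : (0 : ℝ) < t - 1 / 2 + 1)
      linarith
  · unfold FL F1
    rw [hbt, FFp_exp_lam h]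
    push_cast
    ring

theorem FL_re (y t : ℝ) : (FL y t).re = (1 - kp t - km t) *
    (t - 1 / 2 + bt y) + kp t +
      km t * Real.cos (2 * Real.pi * lam (Int.fract y)) := by
  unfold FL F1
  rw [FFp_lam_fract]
  simp only [Complex.add_re, Complex.mul_re, Complex.ofReal_re, Complex.ofReal_im,
    Complex.sub_re, Complex.sub_im, Complex.I_re, Complex.I_im, Complex.mul_im,
    Complex.exp_ofReal_mul_I_re, Complex.exp_ofReal_mul_I_im]
  ring

theorem FL_im (y t : ℝ) : (FL y t).im = -((1 - kp t - km t) *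
    ((1 - bt y) * (Int.fract y - 1 / 2))) +
      km t * Real.sin (2 * Real.pi * lam (Int.fract y)) := by
  unfold FL F1
  rw [FFp_lam_fract]
  simp only [Complex.add_im, Complex.mul_re, Complex.ofReal_re, Complex.ofReal_im,
    Complex.sub_re, Complex.sub_im, Complex.I_re, Complex.I_im, Complex.mul_im,
    Complex.exp_ofReal_mul_I_re, Complex.exp_ofReal_mul_I_im]
  ring

theorem FL_ne {y t : ℝ} (h : NP y t) : FL y t ≠ 0 := by
  have hpi := Real.pi_pos
  rcases le_or_gt (3 / 5) t with h1 | h1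
  · rw [FL_hi h1]
    exact one_ne_zero
  rcases le_or_gt t (2 / 5) with h2 | h2
  · rw [FL_lo h2]
    exact Complex.exp_ne_zero _
  by_cases hside : Int.fract y ≤ 3 / 10 ∨ 7 / 10 ≤ Int.fract y
  · obtain ⟨c, hc, hFc⟩ := FL_side hside t
    rw [hFc]
    exact_mod_cast hc.ne'
  push Not at hside
  obtain ⟨hs1, hs2⟩ := hside
  have hbt1 : bt y < 1 := by
    apply stp_lt_one (by norm_num)
    nlinarith
  have hbt0 := (bt_mem y).1
  intro h0
  have hre := FL_re y t
  have him := FL_im y t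
  rw [h0, Complex.zero_re] at hre
  rw [h0, Complex.zero_im] at him
  rcases lt_or_ge (11 / 20) t with h3 | h3
  · -- `11/20 < t < 3/5`
    rw [FFp_km_zero (by linarith)] at hre
    have hk1 : 0 < kp t := stp_pos (by norm_num) h3
    have hk2 : kp t < 1 := stp_lt_one (by norm_num) h1
    nlinarith [mul_nonneg (by linarith : (0 : ℝ) ≤ 1 - kp t) (by linarith :
      0 ≤ t - 1 / 2 + bt y)]
  rw [FFp_kp_zero h3] at hre him
  -- `km` is in `[0, 1)`
  have hkm0 : 0 ≤ km t := (FFp_k_mem t).2.1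
  have hkm1 : km t < 1 := by
    have := stp_pos (a := 2 / 5) (b := 9 / 20) (by norm_num) h2
    unfold km
    linarith
  have hA : 0 < (1 - km t) * (1 - bt y) := mul_pos (by linarith) (by linarith)
  rcases lt_trichotomy (Int.fract y) (1 / 2) with h5 | h5 | h5
  · have hsinh : Int.fract y - 1 / 2 < 0 := by linarith
    have hl1 := lam_lt_half (Int.fract_nonneg y) h5
    have hl0 := (lam_bounds (Int.fract_nonneg y) (Int.fract_lt_one y).le).1
    have hsin : 0 ≤ Real.sin (2 * Real.pi * lam (Int.fract y)) := by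
      apply Real.sin_nonneg_of_nonneg_of_le_pi
      · positivity
      · nlinarith
    have h6 := mul_nonneg hkm0 hsin
    nlinarith [mul_neg_of_pos_of_neg hA hsinh]
  · -- `fract y = 1/2`
    have hbt : bt y = 0 := by
      unfold bt
      rw [h5]
      apply stp_zero (by norm_num)
      norm_num
    rw [h5, lam_half, hbt, show 2 * Real.pi * (1 / 2) = Real.pi by ring, Real.cos_pi] at hre
    have hne : t ≠ 1 / 2 := fun ht => h ⟨ht, h5⟩
    rcases lt_or_gt_of_ne hne with h6 | h6
    · nlinarith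
    · rw [FFp_km_zero (by linarith)] at hre
      linarith
  · have hsinh : 0 < Int.fract y - 1 / 2 := by linarith
    have hl1 := FFp_lam_gt h5 (Int.fract_lt_one y).le
    have hl0 := (lam_bounds (Int.fract_nonneg y) (Int.fract_lt_one y).le).2
    have hsin : Real.sin (2 * Real.pi * lam (Int.fract y)) ≤ 0 := by
      rw [← Real.sin_sub_two_pi]
      apply Real.sin_nonpos_of_nonpos_of_neg_pi_le
      · nlinarith
      · nlinarith
    have h6 := mul_nonpos_of_nonneg_of_nonpos hkm0 hsin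
    nlinarith [mul_pos hA hsinh]

theorem FL_mid {y t : ℝ} (ht : |t - 1 / 2| ≤ 1 / 20) (hy : |Int.fract y - 1 / 2| ≤ 1 / 10) :
    FL y t = (t - 1 / 2 : ℝ) - (Int.fract y - 1 / 2 : ℝ) * I := by
  rw [abs_le] at ht hy
  have hbt : bt y = 0 := by
    unfold bt
    apply stp_zero (by norm_num)
    nlinarith [hy.1, hy.2]
  unfold FL F1
  rw [FFp_kp_zero (by linarith [ht.2]), FFp_km_zero (by linarith [ht.1]), hbt]
  simp

end Pool.Agent.TSK
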