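import Pool.Agent.CSG.KBas
import Pool.Agent.TSK.FL

/-!
# TSK/KL: the coordinates `KL` on the complement of the torus `TT` (copy of CSG/KBas with `FL`)
-/

open scoped Manifold ContDiff Topology
open Complex (I)
open Set Filter

namespace Pool.Agent.TSK
open Pool.Agent.CSG

section
variable {X : Type*} [TopologicalSpace X] [ChartedSpace E4 X] {φ : Equiv.Perm E3}

/-- coordinates on the complement of the torus -/
noncomputable def KL (S : Surg φ X) (x : E3) (t : ℝ) : X :=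
  HH S (x 0) (FL (x 0) t * Complex.exp ((2 * Real.pi * x 1 : ℝ) * I)) (x 2) t

end

section
variable {X : Type*} [TopologicalSpace X] [ChartedSpace E4 X] {φ κ : Equiv.Perm E3}
  {A : Matrix (Fin 3) (Fin 3) ℤ} {δ ε : ℝ} {k : ℤ}

theorem KLb_int {y t a c : ℝ} (hc : 0 < c)
    (h : FL y t = c * Complex.exp ((2 * Real.pi * a : ℝ) * I)) (hy : ∃ m : ℤ, y = m) :
    ∃ k : ℤ, a = k := by
  obtain ⟨m, hm⟩ := hy
  have hfr : Int.fract y ≤ 3 / 10 ∨ 7 / 10 ≤ Int.fract y := by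
    left
    rw [hm, Int.fract_intCast]
    norm_num
  obtain ⟨c', hc', h'⟩ := FL_side hfr t
  rw [h'] at h
  have hn : c' = c := by
    have h1 := congrArg (fun z : ℂ => ‖z‖) h
    simp only [norm_mul, Complex.norm_exp_ofReal_mul_I, mul_one, Complex.norm_real,
      Real.norm_of_nonneg hc'.le, Real.norm_of_nonneg hc.le] at h1
    exact h1
  rw [hn] at h
  have hc0 : (c : ℂ) ≠ 0 := by exact_mod_cast hc.ne'
  have h2 : Complex.exp ((2 * Real.pi * (0 : ℝ) : ℝ) * I) =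
      Complex.exp ((2 * Real.pi * a : ℝ) * I) := by
    have h3 : (c : ℂ) * 1 = c * Complex.exp ((2 * Real.pi * a : ℝ) * I) := by rw [mul_one]; exact h
    have h4 := mul_left_cancel₀ hc0 h3
    rw [← h4]
    simp
  obtain ⟨k, hk⟩ := exp_eq_iff.1 h2
  exact ⟨k, by rw [hk, zero_add]⟩

theorem KLb_main (S : Surg φ X) {x : E3} (hx : ¬ IsLat x) {t a c : ℝ} (hc : 0 < c)
    (h : FL (x 0) t = c * Complex.exp ((2 * Real.pi * a : ℝ) * I)) :
    ¬ IsLat (pt (x 0) (a + x 1) (x 2)) ∧ KL S x t = S.H (pt (x 0) (a + x 1) (x 2), t) := by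
  have h1 : ¬ IsLat (pt (x 0) (a + x 1) (x 2)) := by
    intro hl
    obtain ⟨h2, ⟨m1, h3⟩, h4⟩ := isLat_pt.1 hl
    obtain ⟨k, hk⟩ := KLb_int hc h h2
    apply hx
    rw [← pt_eta x]
    refine isLat_pt.2 ⟨h2, ⟨m1 - k, ?_⟩, h4⟩
    push_cast
    rw [← h3, hk]
    ring
  refine ⟨h1, ?_⟩
  unfold KL
  have h5 : FL (x 0) t * Complex.exp ((2 * Real.pi * x 1 : ℝ) * I) =
      c * Complex.exp ((2 * Real.pi * (a + x 1) : ℝ) * I) := by
    rw [h, mul_assoc, ← Complex.exp_add]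
    congr 2
    push_cast
    ring
  rw [h5, HH_smul S _ _ _ _ c hc, HH_exp S (a + x 1) h1]

theorem KLb_dir {y t : ℝ} (h : NP y t) :
    ∃ a c : ℝ, 0 < c ∧ FL y t = c * Complex.exp ((2 * Real.pi * a : ℝ) * I) :=
  exists_dir (FL_ne h)

theorem KL_side (S : Surg φ X) {x : E3} (hx : ¬ IsLat x)
    (h : Int.fract (x 0) ≤ 3 / 10 ∨ 7 / 10 ≤ Int.fract (x 0)) (t : ℝ) :
    KL S x t = S.H (x, t) := by
  obtain ⟨c, hc, hF⟩ := FL_side h t
  have h1 : ¬ IsLat (pt (x 0) (x 1) (x 2)) := by rw [pt_eta]; exact hx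
  unfold KL
  rw [hF, HH_smul S _ _ _ _ c hc, HH_exp S (x 1) h1, pt_eta]

theorem KL_hi (S : Surg φ X) {x : E3} (hx : ¬ IsLat x) {t : ℝ} (ht : 3 / 5 ≤ t) :
    KL S x t = S.H (x, t) := by
  have h1 : ¬ IsLat (pt (x 0) (x 1) (x 2)) := by rw [pt_eta]; exact hx
  unfold KL
  rw [FL_hi ht, one_mul, HH_exp S (x 1) h1, pt_eta]

theorem KL_lo (S : Surg φ X) {x : E3} (hx : ¬ IsLat x) {t : ℝ} (ht : t ≤ 2 / 5) :
    KL S x t = S.H (sh (fun y _ => lam y) x, t) := by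
  have h := KLb_main S hx (t := t) (a := lam (x 0)) (c := 1) one_pos (by
    rw [FL_lo ht, Complex.ofReal_one, one_mul])
  rw [h.2]
  have h2 : sh (fun y _ => lam y) x = pt (x 0) (x 1 + lam (x 0)) (x 2) := rfl
  rw [h2, add_comm]

theorem KL_loc (S : Surg φ X) {x : E3} (hx : ¬ IsLat x) {t : ℝ} (h : NP (x 0) t) :
    IsLocalDiffeomorphAt 𝓘(ℝ, E3 × ℝ) (𝓡 4) ∞ (fun q : E3 × ℝ => KL S q.1 q.2) (x, t) := by
  have hom0 : FL (x 0) t ≠ 0 := FL_ne h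
  obtain ⟨a, ha1, ha2⟩ := exists_arg (V := ℝ × ℝ) (om := fun w => FL w.1 w.2) (v := (x 0, t))
    (Eventually.of_forall (fun w => FL_smooth.contDiffAt)) hom0
  set p0 : (E3 × ℝ) →L[ℝ] ℝ := (EuclideanSpace.proj (0 : Fin 3) : E3 →L[ℝ] ℝ).comp
    (ContinuousLinearMap.fst ℝ E3 ℝ) with hp0
  set p1 : (E3 × ℝ) →L[ℝ] ℝ := (EuclideanSpace.proj (1 : Fin 3) : E3 →L[ℝ] ℝ).comp
    (ContinuousLinearMap.fst ℝ E3 ℝ) with hp1
  set p2 : (E3 × ℝ) →L[ℝ] ℝ := (EuclideanSpace.proj (2 : Fin 3) : E3 →L[ℝ] ℝ).comp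
    (ContinuousLinearMap.fst ℝ E3 ℝ) with hp2
  set p3 : (E3 × ℝ) →L[ℝ] ℝ := ContinuousLinearMap.snd ℝ E3 ℝ with hp3
  set Φ : E3 × ℝ → ℝ × ℝ × ℝ × ℝ := fun q => (p0 q, a (p0 q, p3 q) + p1 q, p2 q, p3 q) with hΦ
  have hcont : Tendsto (fun q : E3 × ℝ => (p0 q, p3 q)) (𝓝 (x, t)) (𝓝 (x 0, t)) :=
    ((p0.continuous.prodMk p3.continuous).tendsto (x, t))
  have hloc : IsLocalDiffeomorphAt 𝓘(ℝ, E3 × ℝ) 𝓘(ℝ, ℝ × ℝ × ℝ × ℝ) ∞ Φ (x, t) := by
    apply ld_of_fderiv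
    · filter_upwards [hcont.eventually ha1] with q hq
      have h1 : ContDiffAt ℝ ∞ (fun q : E3 × ℝ => a (p0 q, p3 q)) q :=
        ContDiffAt.comp q (g := a) (f := fun q : E3 × ℝ => (p0 q, p3 q)) hq
          ((p0.contDiff.prodMk p3.contDiff).contDiffAt)
      exact p0.contDiff.contDiffAt.prodMk ((h1.add p1.contDiff.contDiffAt).prodMk
        (p2.contDiff.contDiffAt.prodMk p3.contDiff.contDiffAt))
    · simp
    · intro v hv
      have hda : HasFDerivAt a (fderiv ℝ a (x 0, t)) (x 0, t) :=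
        (ha1.self_of_nhds.differentiableAt (by simp)).hasFDerivAt
      have hpair : HasFDerivAt (fun q : E3 × ℝ => (p0 q, p3 q)) (p0.prod p3) (x, t) :=
        (p0.hasFDerivAt).prodMk (p3.hasFDerivAt)
      have hda' : HasFDerivAt (fun q : E3 × ℝ => a (p0 q, p3 q))
          ((fderiv ℝ a (x 0, t)).comp (p0.prod p3)) (x, t) :=
        HasFDerivAt.comp (x, t) (f := fun q : E3 × ℝ => (p0 q, p3 q)) (g := a) hda hpair
      have hd : HasFDerivAt Φ (p0.prod (((fderiv ℝ a (x 0, t)).comp (p0.prod p3) + p1).prod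
          (p2.prod p3))) (x, t) :=
        (p0.hasFDerivAt).prodMk ((hda'.add p1.hasFDerivAt).prodMk
          ((p2.hasFDerivAt).prodMk (p3.hasFDerivAt)))
      rw [hd.fderiv] at hv
      have e0 : p0 v = 0 := congrArg (fun z : ℝ × ℝ × ℝ × ℝ => z.1) hv
      have e1 : (fderiv ℝ a (x 0, t)) (p0 v, p3 v) + p1 v = 0 :=
        congrArg (fun z : ℝ × ℝ × ℝ × ℝ => z.2.1) hv
      have e2 : p2 v = 0 := congrArg (fun z : ℝ × ℝ × ℝ × ℝ => z.2.2.1) hv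
      have e3 : p3 v = 0 := congrArg (fun z : ℝ × ℝ × ℝ × ℝ => z.2.2.2) hv
      have e4 : p1 v = 0 := by
        rw [e0, e3] at e1
        have : ((0 : ℝ), (0 : ℝ)) = (0 : ℝ × ℝ) := rfl
        rw [this, map_zero, zero_add] at e1
        exact e1
      apply Prod.ext
      · ext i
        fin_cases i
        · exact e0
        · exact e4
        · exact e2
      · exact e3
  have hlatev : ∀ᶠ q : E3 × ℝ in 𝓝 (x, t), ¬ IsLat q.1 := by
    have h1 : {y : E3 | IsLat y}ᶜ ∈ 𝓝 x := isClosed_isLat.isOpen_compl.mem_nhds hx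
    exact (continuous_fst.tendsto (x, t)).eventually h1
  have hfev : ∀ᶠ q : E3 × ℝ in 𝓝 (x, t), FL (p0 q) (p3 q) ≠ 0 := by
    have h1 : ContinuousAt (fun w : ℝ × ℝ => FL w.1 w.2) (x 0, t) := FL_smooth.continuous.continuousAt
    exact hcont.eventually (h1.eventually_ne hom0)
  have hpos : ∀ z : ℂ, z ≠ 0 → 0 < ‖z‖ := fun z hz => norm_pos_iff.2 hz
  have hat : FL (x 0) t = (‖FL (x 0) t‖ : ℝ) * Complex.exp ((2 * Real.pi * a (x 0, t) : ℝ) * I) :=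
    ha2.self_of_nhds
  have hmain := KLb_main S hx (hpos _ hom0) hat
  have hres := ld_H S hloc hmain.1
  apply ld_congr hres
  filter_upwards [hlatev, hfev, hcont.eventually ha2] with q hq1 hq2 hq3
  exact (KLb_main S hq1 (hpos _ hq2) hq3).2

theorem KL_per (S : Surg φ X) {x : E3} (hx : ¬ IsLat x) (t : ℝ) (m : Fin 3 → ℤ) :
    KL S (x + vec m) t = KL S x t := by
  have e0 : (x + vec m) 0 = x 0 + m 0 := by simp [vec]
  have e1 : (x + vec m) 1 = x 1 + m 1 := by simp [vec]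
  have e2 : (x + vec m) 2 = x 2 + m 2 := by simp [vec]
  unfold KL
  rw [e0, e1, e2, FL_per]
  have h1 : Complex.exp ((2 * Real.pi * (x 1 + m 1) : ℝ) * I) =
      Complex.exp ((2 * Real.pi * x 1 : ℝ) * I) := (exp_eq_iff.2 ⟨m 1, rfl⟩).symm
  rw [h1]
  unfold HH
  set om := FL (x 0) t * Complex.exp ((2 * Real.pi * x 1 : ℝ) * I) with hom
  have h2 : pt (x 0 + m 0) (Complex.arg om / (2 * Real.pi)) (x 2 + m 2) =
      pt (x 0) (Complex.arg om / (2 * Real.pi)) (x 2) + vec ![m 0, 0, m 2] := by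
    rw [pt_add_vec]
    simp
  rw [h2, S.H_per]
  intro hl
  obtain ⟨hy, ⟨k, hk⟩, hn⟩ := isLat_pt.1 hl
  obtain ⟨m0, hm0⟩ := hy
  have hfr : Int.fract (x 0) ≤ 3 / 10 ∨ 7 / 10 ≤ Int.fract (x 0) := by
    left
    rw [hm0, Int.fract_intCast]
    norm_num
  obtain ⟨c, hc, hF⟩ := FL_side hfr t
  have hc0 : (c : ℂ) ≠ 0 := by exact_mod_cast hc.ne'
  have h3 : om = c * Complex.exp ((2 * Real.pi * x 1 : ℝ) * I) := by rw [hom, hF]
  have h4 : ‖om‖ = c := by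
    rw [h3, norm_mul, Complex.norm_exp_ofReal_mul_I, mul_one, Complex.norm_real,
      Real.norm_of_nonneg hc.le]
  have h5 := Complex.norm_mul_exp_arg_mul_I om
  have h6 : Complex.arg om = 2 * Real.pi * k := by
    rw [← hk]
    have := Real.pi_pos
    field_simp
  rw [h6, h4] at h5
  rw [h3] at h5
  have h7 := mul_left_cancel₀ hc0 h5
  obtain ⟨m', hm'⟩ := exp_eq_iff.1 h7
  apply hx
  rw [← pt_eta x]
  exact isLat_pt.2 ⟨⟨m0, hm0⟩, ⟨k + m', by rw [hm']; push_cast; ring⟩, hn⟩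

theorem KL_mon {S : Surg φ X} (N : Nrm S κ δ ε k) {x : E3} (hx : ¬ IsLat x) {t : ℝ}
    (h1 : -(2 / 5) ≤ t) (h2 : t ≤ 2 / 5) : KL S (κ x) t = KL S x (t + 1) := by
  obtain ⟨A', hA'⟩ := N.mono
  have hκx : ¬ IsLat (κ x) := fun h => hx ((hA'.isLat x).1 h)
  rw [KL_lo S hκx h2, KL_hi S hx (by linarith)]
  have h3 : sh (fun y _ => lam y) (κ x) = φ x := by
    rw [N.fac]
    rfl
  rw [h3, S.H_mon x t hx]

theorem KL_inj {S : Surg φ X} (N : Nrm S κ δ ε k) {x y : E3} (hx : ¬ IsLat x) (hy : ¬ IsLat y)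
    {s t : ℝ} (hs : 0 < s) (hs' : s ≤ 1) (ht : 0 < t) (ht' : t ≤ 1)
    (hxs : NP (x 0) s) (hyt : NP (y 0) t)
    (h : KL S x s = KL S y t) : s = t ∧ ∃ m, y = x + vec m := by
  obtain ⟨Aφ, hAφ⟩ := N.monoφ
  obtain ⟨a, c, hc, hF⟩ := KLb_dir hxs
  obtain ⟨a', c', hc', hF'⟩ := KLb_dir hyt
  obtain ⟨l1, e1⟩ := KLb_main S hx hc hF
  obtain ⟨l2, e2⟩ := KLb_main S hy hc' hF'
  rw [e1, e2] at h
  obtain ⟨hst, m, hm⟩ := H_inj_one hAφ S l1 l2 hs hs' ht ht' h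
  refine ⟨hst, ?_⟩
  obtain ⟨g0, g1, g2⟩ := pt_inj_vec hm
  rw [g0, ← hst, FL_per, hF] at hF'
  have hcc : c = c' := by
    have h1 := congrArg (fun z : ℂ => ‖z‖) hF'
    simp only [norm_mul, Complex.norm_exp_ofReal_mul_I, mul_one, Complex.norm_real,
      Real.norm_of_nonneg hc'.le, Real.norm_of_nonneg hc.le] at h1
    exact h1
  rw [← hcc] at hF'
  have hc0 : (c : ℂ) ≠ 0 := by exact_mod_cast hc.ne'
  obtain ⟨k, hk⟩ := exp_eq_iff.1 (mul_left_cancel₀ hc0 hF')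
  refine ⟨![m 0, m 1 - k, m 2], ?_⟩
  rw [← pt_eta y, ← pt_eta x, pt_add_vec]
  have g1' : y 1 = x 1 + (m 1 - k) := by linarith
  rw [g0, g1', g2]
  simp

theorem KL_notT {S : Surg φ X} (N : Nrm S κ δ ε k) {x : E3} (hx : ¬ IsLat x)
    {t : ℝ} (ht : 0 < t) (ht' : t ≤ 1) (h : NP (x 0) t) : KL S x t ∉ TT S := by
  rintro ⟨u, n, hq⟩
  obtain ⟨Aφ, hAφ⟩ := N.monoφ
  obtain ⟨a, c, hc, hF⟩ := KLb_dir h
  obtain ⟨l1, e1⟩ := KLb_main S hx hc hF
  rw [e1] at hq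
  have l2 : ¬ IsLat (pt (1 / 2) u n) := by
    intro hl
    obtain ⟨⟨m, hm⟩, _⟩ := isLat_pt.1 hl
    have h1 : (1 : ℝ) = ((2 * m : ℤ) : ℝ) := by push_cast; linarith
    have h2 : (1 : ℤ) = 2 * m := by exact_mod_cast h1
    omega
  obtain ⟨hst, m, hm⟩ := H_inj_one hAφ S l1 l2 ht ht' (by norm_num) (by norm_num) hq
  obtain ⟨g0, _, _⟩ := pt_inj_vec hm
  apply h
  refine ⟨hst, ?_⟩
  have h3 : x 0 = 1 / 2 + ((-(m 0) : ℤ) : ℝ) := by push_cast; linarith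
  rw [h3, Int.fract_add_intCast]
  exact Int.fract_eq_self.2 ⟨by norm_num, by norm_num⟩

theorem KL_cover {S : Surg φ X} (N : Nrm S κ δ ε k) {q : X} (hq : q ∉ TT S) :
    (∃ y, q = S.j (y, 0)) ∨ ∃ x t, ¬ IsLat x ∧ 0 < t ∧ t ≤ 1 ∧ NP (x 0) t ∧ q = KL S x t := by
  obtain ⟨Aφ, hAφ⟩ := N.monoφ
  rcases S.cover q with h | ⟨x0, t0, hx0, hq0⟩
  · exact Or.inl h
  · right
    obtain ⟨x, t, hx, ht, ht', hqt⟩ : ∃ x t, ¬ IsLat x ∧ 0 < t ∧ t ≤ 1 ∧ q = S.H (x, t) := by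
      set k : ℤ := ⌈t0⌉ - 1 with hk
      obtain ⟨h1, h2⟩ := KBas_zpow hAφ S k x0 (t0 - k) hx0
      refine ⟨(φ ^ k) x0, t0 - k, h1, ?_, ?_, ?_⟩
      · have := Int.ceil_lt_add_one t0
        rw [hk]
        push_cast
        linarith
      · have := Int.le_ceil t0
        rw [hk]
        push_cast
        linarith
      · rw [h2, hq0, sub_add_cancel]
    by_cases hnp : NP (x 0) t
    · obtain ⟨a, c, hc, hF⟩ := KLb_dir hnp
      have hl : ¬ IsLat (pt (x 0) (x 1 - a) (x 2)) := by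
        intro hl
        obtain ⟨hy, ⟨m1, hm1⟩, hn⟩ := isLat_pt.1 hl
        obtain ⟨k, hk⟩ := KLb_int hc hF hy
        apply hx
        rw [← pt_eta x]
        exact isLat_pt.2 ⟨hy, ⟨m1 + k, by push_cast; rw [← hm1, ← hk]; ring⟩, hn⟩
      refine ⟨pt (x 0) (x 1 - a) (x 2), t, hl, ht, ht', ?_, ?_⟩
      · rw [pt_zero']
        exact hnp
      · have hF2 : FL ((pt (x 0) (x 1 - a) (x 2)) 0) t =
            c * Complex.exp ((2 * Real.pi * a : ℝ) * I) := by rw [pt_zero']; exact hF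
        rw [(KLb_main S hl hc hF2).2, hqt, pt_zero', pt_one', pt_two']
        have h5 : a + (x 1 - a) = x 1 := by ring
        rw [h5, pt_eta]
    · exfalso
      apply hq
      unfold NP at hnp
      push Not at hnp
      obtain ⟨ht2, hfr⟩ := hnp
      refine ⟨x 1, x 2, ?_⟩
      rw [hqt, ht2]
      have h6 : x = pt (1 / 2) (x 1) (x 2) + vec ![⌊x 0⌋, 0, 0] := by
        rw [pt_add_vec]
        conv_lhs => rw [← pt_eta x]
        have h7 : x 0 = 1 / 2 + ⌊x 0⌋ := by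
          have := Int.fract_add_floor (x 0)
          rw [hfr] at this
          exact this.symm
        have h8 : (1 / 2 : ℝ) + ((![⌊x 0⌋, 0, 0] : Fin 3 → ℤ) 0 : ℤ) = x 0 := h7.symm
        rw [h8]
        simp
      have h9 : ¬ IsLat (pt (1 / 2) (x 1) (x 2)) := by
        intro hl
        obtain ⟨⟨m, hm⟩, _⟩ := isLat_pt.1 hl
        have h1 : (1 : ℝ) = ((2 * m : ℤ) : ℝ) := by push_cast; linarith
        have h2 : (1 : ℤ) = 2 * m := by exact_mod_cast h1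
        omega
      conv_lhs => rw [h6]
      exact S.H_per _ _ _ h9

end

end Pool.Agent.TSK
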