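import Pool.Agent.TSK.FrB
import Pool.Agent.TSK.KL

/-!
# TSK/CsG: the coordinates `G` near the two tori, from normalised surgery data

`p = (x 0 - 1/2) + i (t - 1/2)`, `r = x 2 + i x 1`.
-/

open scoped Manifold ContDiff Topology
open Complex (I)
open Set Filter

namespace Pool.Agent.TSK
open Pool.Agent.TS
open Pool.Agent.CSG

/-- the point of `R^3` with coordinates `p`, `r` -/
noncomputable def xP (p r : ℂ) : E3 := pt (1 / 2 + p.re) r.im r.re

@[simp] theorem xP_zero' (p r : ℂ) : xP p r 0 = 1 / 2 + p.re := by simp [xP]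
@[simp] theorem xP_one' (p r : ℂ) : xP p r 1 = r.im := by simp [xP]
@[simp] theorem xP_two' (p r : ℂ) : xP p r 2 = r.re := by simp [xP]

theorem onCK_iff {p r : ℂ} : OnCK p r ↔ IsLat (xP p r) := by
  unfold OnCK xP
  rw [isLat_pt, mem_GI]
  constructor
  · rintro ⟨⟨h1, h2⟩, a, ha⟩
    exact ⟨⟨a + 1, by rw [ha]; push_cast; ring⟩, h2, h1⟩
  · rintro ⟨⟨a, ha⟩, h2, h1⟩
    exact ⟨⟨h1, h2⟩, a - 1, by push_cast; linarith⟩

theorem onCK_add {p r a b : ℂ} (ha : a ∈ GI) (hb : b ∈ GI) : OnCK (p + a) (r + b) ↔ OnCK p r := by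
  obtain ⟨⟨m, hm⟩, _⟩ := mem_GI.1 ha
  constructor
  · rintro ⟨h1, c, hc⟩
    refine ⟨?_, c - m, ?_⟩
    · have := GI_sub h1 hb
      rwa [add_sub_cancel_right] at this
    · rw [Complex.add_re, hm] at hc
      push_cast
      linarith
  · rintro ⟨h1, c, hc⟩
    refine ⟨GI_add h1 hb, c + m, ?_⟩
    rw [Complex.add_re, hm, hc]
    push_cast
    ring

theorem onCK_fr {p r : ℂ} : OnCK (fr p) (fr r) ↔ OnCK p r := by
  have h := onCK_add (p := fr p) (r := fr r) (sub_fr_mem p) (sub_fr_mem r)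
  rw [add_sub_cancel, add_sub_cancel] at h
  exact h.symm

/-- `xP` and the fractional parts -/
theorem xP_fr (p r : ℂ) : ∃ m, xP p r = xP (fr p) (fr r) + vec m := by
  refine ⟨![round p.re, round r.im, round r.re], ?_⟩
  unfold xP
  rw [pt_add_vec, fr_re, fr_im, fr_re]
  congr 1
  · show (1 / 2 + p.re : ℝ) = 1 / 2 + (p.re - round p.re) + ((round p.re : ℤ) : ℝ)
    ring
  · show r.im = r.im - round r.im + ((round r.im : ℤ) : ℝ)
    ring
  · show r.re = r.re - round r.re + ((round r.re : ℤ) : ℝ)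
    ring

theorem NP_iff (p : ℂ) (m : ℤ) (h1 : 0 ≤ 1 / 2 + p.im - m) (h2 : 1 / 2 + p.im - m ≤ 1) :
    NP (1 / 2 + p.re) (1 / 2 + p.im - m) ↔ p ∉ GI := by
  unfold NP
  rw [not_iff_not, mem_GI]
  constructor
  · rintro ⟨h3, h4⟩
    refine ⟨⟨⌊1 / 2 + p.re⌋, ?_⟩, ⟨m, by linarith⟩⟩
    have := Int.fract_add_floor (1 / 2 + p.re)
    rw [h4] at this
    linarith
  · rintro ⟨⟨a, ha⟩, ⟨b, hb⟩⟩
    rw [hb] at h1 h2
    have e1 : b = m := by
      have h3 : (-1 : ℝ) < (b - m : ℤ) := by push_cast; linarith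
      have h4 : ((b - m : ℤ) : ℝ) < 1 := by push_cast; linarith
      have h5 : -1 < b - m := by exact_mod_cast h3
      have h6 : b - m < 1 := by exact_mod_cast h4
      omega
    refine ⟨by rw [hb, e1]; ring, ?_⟩
    rw [ha, Int.fract_add_intCast]
    exact Int.fract_eq_self.2 ⟨by norm_num, by norm_num⟩

section
variable {X : Type*} [TopologicalSpace X] [ChartedSpace E4 X] {φ κ : Equiv.Perm E3}
  {δ ε : ℝ} {k : ℤ}

/-- the coordinates near the two tori -/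
noncomputable def csG (S : Surg φ X) (a : ℂ × ℂ) : X :=
  KL S (xP (fr a.1) (fr a.2)) (1 / 2 + (fr a.1).im)

theorem csG_per (S : Surg φ X) (p r : ℂ) {a b : ℂ} (ha : a ∈ GI) (hb : b ∈ GI) :
    csG S (p + a, r + b) = csG S (p, r) := by
  unfold csG
  rw [fr_add ha, fr_add hb]

/-- a value of `KL` is a value of `H` -/
theorem KL_val (S : Surg φ X) {x : E3} (hx : ¬ IsLat x) {t : ℝ} (h : NP (x 0) t) :
    ∃ a : ℝ, ¬ IsLat (pt (x 0) (a + x 1) (x 2)) ∧ KL S x t = S.H (pt (x 0) (a + x 1) (x 2), t) := by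
  obtain ⟨a, c, hc, hF⟩ := KLb_dir h
  obtain ⟨l1, e1⟩ := KLb_main S hx hc hF
  exact ⟨a, l1, e1⟩

theorem csG_eq_fr (S : Surg φ X) {p r : ℂ} (h : ¬ OnCK p r) (t : ℝ) :
    KL S (xP (fr p) (fr r)) t = KL S (xP p r) t := by
  obtain ⟨m, hm⟩ := xP_fr p r
  have h1 : ¬ IsLat (xP (fr p) (fr r)) := by
    rw [← onCK_iff, onCK_fr]
    exact h
  rw [hm, KL_per S h1]

theorem csG_eq (S : Surg φ X) {p r : ℂ} (h : ¬ OnCK p r) (m : ℤ)
    (h1 : 0 ≤ 1 / 2 + p.im - m) (h2 : 1 / 2 + p.im - m < 1) :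
    csG S (p, r) = KL S (xP p r) (1 / 2 + p.im - m) := by
  have h3 : round p.im = m := by
    rw [round_eq, Int.floor_eq_iff]
    constructor <;> linarith
  unfold csG
  simp only
  rw [csG_eq_fr S h, fr_im, h3]
  congr 1
  ring

/-- time `-2/5 ≤ t < 0` near the axis -/
theorem csG_eq_neg {S : Surg φ X} (N : Nrm S κ δ ε k) {p r : ℂ} (h : ¬ OnCK p r) (m : ℤ)
    (h1 : -(2 / 5) ≤ 1 / 2 + p.im - m) (h2 : 1 / 2 + p.im - m < 1)
    (h3 : 1 / 2 + p.im - m < 0 → ‖fr r‖ < δ) :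
    csG S (p, r) = KL S (xP p r) (1 / 2 + p.im - m) := by
  rcases lt_or_ge (1 / 2 + p.im - m) 0 with h4 | h4
  · have h5 := csG_eq S h (m - 1) (by push_cast; linarith) (by push_cast; linarith)
    rw [h5, ← csG_eq_fr S h, ← csG_eq_fr S h]
    have h6 : ¬ IsLat (xP (fr p) (fr r)) := by
      rw [← onCK_iff, onCK_fr]
      exact h
    have h7 := KL_mon N h6 (t := 1 / 2 + p.im - m) h1 (by linarith)
    obtain ⟨h8, h9⟩ := fr_abs_lt (h3 h4)
    have h10 : κ (xP (fr p) (fr r)) = xP (fr p) (fr r) := by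
      apply N.axis
      · rw [xP_one']; exact h9
      · rw [xP_two']; exact h8
    rw [h10] at h7
    rw [h7]
    congr 1
    push_cast
    ring
  · exact csG_eq S h m h4 h2

theorem xP_smooth : ContDiff ℝ ∞ fun a : ℂ × ℂ => xP a.1 a.2 := by
  rw [contDiff_euclidean]
  intro i
  fin_cases i
  · simp only [xP, pt]
    exact contDiff_const.add (Complex.reCLM.contDiff.comp contDiff_fst)
  · simp only [xP, pt]
    exact Complex.imCLM.contDiff.comp contDiff_snd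
  · simp only [xP, pt]
    exact Complex.reCLM.contDiff.comp contDiff_snd

theorem isClosed_onCK : IsClosed {a : ℂ × ℂ | OnCK a.1 a.2} := by
  have : {a : ℂ × ℂ | OnCK a.1 a.2} = (fun a : ℂ × ℂ => xP a.1 a.2) ⁻¹' {x | IsLat x} := by
    ext a
    exact onCK_iff
  rw [this]
  exact isClosed_isLat.preimage xP_smooth.continuous

/-- the affine coordinates `(p, r) ↦ (x, t)` -/
noncomputable def affP (m : ℤ) : (ℂ × ℂ) ≃ (E3 × ℝ) where
  toFun a := (xP a.1 a.2, 1 / 2 + a.1.im - m)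
  invFun q := (((q.1 0 - 1 / 2 : ℝ) : ℂ) + ((q.2 - 1 / 2 + m : ℝ) : ℂ) * I,
    ((q.1 2 : ℝ) : ℂ) + ((q.1 1 : ℝ) : ℂ) * I)
  left_inv a := by
    apply Prod.ext
    · apply Complex.ext
      · simp
      · simp
        ring
    · apply Complex.ext <;> simp
  right_inv q := by
    apply Prod.ext
    · ext i
      fin_cases i <;> simp [xP]
    · simp
      ring

theorem affP_smooth (m : ℤ) : ContDiff ℝ ∞ (affP m) := by
  show ContDiff ℝ ∞ fun a : ℂ × ℂ => (xP a.1 a.2, 1 / 2 + a.1.im - m)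
  exact xP_smooth.prodMk ((contDiff_const.add (Complex.imCLM.contDiff.comp contDiff_fst)).sub
    contDiff_const)

theorem affP_symm_smooth (m : ℤ) : ContDiff ℝ ∞ (affP m).symm := by
  show ContDiff ℝ ∞ fun q : E3 × ℝ => ((((q.1 0 - 1 / 2 : ℝ) : ℂ) + ((q.2 - 1 / 2 + m : ℝ) : ℂ) * I,
    ((q.1 2 : ℝ) : ℂ) + ((q.1 1 : ℝ) : ℂ) * I) : ℂ × ℂ)
  have h : ∀ i : Fin 3, ContDiff ℝ ∞ (fun q : E3 × ℝ => q.1 i) := fun i =>
    (contDiff_euclidean.1 contDiff_id i).comp contDiff_fst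
  have ho : ∀ {f : E3 × ℝ → ℝ}, ContDiff ℝ ∞ f → ContDiff ℝ ∞ fun q => (f q : ℂ) :=
    fun hf => Complex.ofRealCLM.contDiff.comp hf
  exact ((ho ((h 0).sub contDiff_const)).add ((ho ((contDiff_snd.sub contDiff_const).add
    contDiff_const)).mul contDiff_const)).prodMk ((ho (h 2)).add ((ho (h 1)).mul contDiff_const))

theorem csG_loc {S : Surg φ X} (N : Nrm S κ δ ε k) {ρ : ℝ} (hρ : ρ ≤ 1 / 8) (hδ : ρ ≤ δ)
    {p r : ℂ} (hW : (p, r) ∈ Wd ρ) (hp : p ∉ GI) (hC : ¬ OnCK p r) :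
    IsLocalDiffeomorphAt 𝓘(ℝ, ℂ × ℂ) (𝓡 4) ∞ (csG S) (p, r) := by
  set m := round p.im with hm
  have h0 : 0 ≤ 1 / 2 + p.im - m := by have := (rd_mem p.im).1; linarith
  have h1 : 1 / 2 + p.im - m < 1 := by have := (rd_mem p.im).2; linarith
  have hnp : NP ((xP p r) 0) (1 / 2 + p.im - m) := by
    rw [xP_zero', NP_iff p m h0 h1.le]
    exact hp
  have hx : ¬ IsLat (xP p r) := by rw [← onCK_iff]; exact hC
  have hld := (ld_of_perm (affP_smooth m) (affP_symm_smooth m) (p, r)).comp (𝓡 4) X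
    (g := fun q : E3 × ℝ => KL S q.1 q.2) (KL_loc S hx hnp)
  apply ld_congr hld
  have e1 : ∀ᶠ a : ℂ × ℂ in 𝓝 (p, r), ¬ OnCK a.1 a.2 :=
    isClosed_onCK.isOpen_compl.mem_nhds hC
  have hcont : Continuous fun a : ℂ × ℂ => 1 / 2 + a.1.im - (m : ℝ) :=
    (continuous_const.add (Complex.continuous_im.comp continuous_fst)).sub continuous_const
  have e2 : ∀ᶠ a : ℂ × ℂ in 𝓝 (p, r), 1 / 2 + a.1.im - (m : ℝ) < 1 :=
    hcont.continuousAt.eventually_lt continuousAt_const h1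
  have e3 : ∀ᶠ a : ℂ × ℂ in 𝓝 (p, r), -(2 / 5) < 1 / 2 + a.1.im - (m : ℝ) :=
    continuousAt_const.eventually_lt hcont.continuousAt (by
      show -(2 / 5) < 1 / 2 + p.im - (m : ℝ)
      linarith)
  have e4 : ∀ᶠ a : ℂ × ℂ in 𝓝 (p, r), 1 / 2 + a.1.im - (m : ℝ) < 0 → ‖fr a.2‖ < δ := by
    rcases h0.lt_or_eq with h2 | h2
    · have : ∀ᶠ a : ℂ × ℂ in 𝓝 (p, r), 0 < 1 / 2 + a.1.im - (m : ℝ) :=
        continuousAt_const.eventually_lt hcont.continuousAt h2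
      filter_upwards [this] with a ha hb
      linarith
    · have h3 : ‖fr r‖ < δ := by
        rcases hW with h4 | h4
        · exfalso
          have h5 := (fr_abs_lt h4).2
          simp only at h5
          rw [fr_im, ← hm, abs_lt] at h5
          linarith [h5.1]
        · exact lt_of_lt_of_le h4 hδ
      have : ∀ᶠ a : ℂ × ℂ in 𝓝 (p, r), ‖fr a.2‖ < δ :=
        (fr_continuous.comp continuous_snd).continuousAt.eventually_lt continuousAt_const h3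
      filter_upwards [this] with a ha _
      exact ha
  filter_upwards [e1, e2, e3, e4] with a h3 h4 h5 h6
  exact csG_eq_neg N h3 m h5.le h4 h6

/-- representation with a time in `(0, 1]` -/
theorem csG_rep {S : Surg φ X} (N : Nrm S κ δ ε k) {ρ : ℝ} (hρ : ρ ≤ 1 / 8) (hδ : ρ ≤ δ)
    {p r : ℂ} (hW : (p, r) ∈ Wd ρ) (hp : p ∉ GI) (hC : ¬ OnCK p r) :
    ∃ s : ℝ, 0 < s ∧ s ≤ 1 ∧ NP ((xP p r) 0) s ∧ csG S (p, r) = KL S (xP p r) s ∧
      ∃ m : ℤ, s = 1 / 2 + p.im - m := by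
  set m := round p.im with hm
  have h0 : 0 ≤ 1 / 2 + p.im - m := by have := (rd_mem p.im).1; linarith
  have h1 : 1 / 2 + p.im - m < 1 := by have := (rd_mem p.im).2; linarith
  rcases h0.lt_or_eq with h2 | h2
  · refine ⟨1 / 2 + p.im - m, h2, h1.le, ?_, csG_eq S hC m h0 h1, m, rfl⟩
    rw [xP_zero', NP_iff p m h0 h1.le]
    exact hp
  · refine ⟨1, one_pos, le_rfl, ?_, ?_, m - 1, by push_cast; linarith⟩
    · unfold NP
      norm_num
    · rw [csG_eq S hC m h0 h1, ← h2]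
      have h3 : ‖fr r‖ < δ := by
        rcases hW with h4 | h4
        · exfalso
          have h5 := (fr_abs_lt h4).2
          simp only at h5
          rw [fr_im, ← hm, abs_lt] at h5
          linarith [h5.1]
        · exact lt_of_lt_of_le h4 hδ
      have hx : ¬ IsLat (xP (fr p) (fr r)) := by rw [← onCK_iff, onCK_fr]; exact hC
      have h7 := KL_mon N hx (t := 0) (by norm_num) (by norm_num)
      obtain ⟨h8, h9⟩ := fr_abs_lt h3
      have h10 : κ (xP (fr p) (fr r)) = xP (fr p) (fr r) := by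
        apply N.axis
        · rw [xP_one']; exact h9
        · rw [xP_two']; exact h8
      rw [h10, zero_add, csG_eq_fr S hC, csG_eq_fr S hC] at h7
      exact h7

theorem csG_inj {S : Surg φ X} (N : Nrm S κ δ ε k) {ρ : ℝ} (hρ : ρ ≤ 1 / 8) (hδ : ρ ≤ δ)
    {p r p' r' : ℂ} (hW : (p, r) ∈ Wd ρ) (hp : p ∉ GI) (hC : ¬ OnCK p r)
    (hW' : (p', r') ∈ Wd ρ) (hp' : p' ∉ GI) (hC' : ¬ OnCK p' r')
    (h : csG S (p, r) = csG S (p', r')) : p' - p ∈ GI ∧ r' - r ∈ GI := by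
  obtain ⟨s, s0, s1, sn, se, m, hm⟩ := csG_rep N hρ hδ hW hp hC
  obtain ⟨s', s0', s1', sn', se', m', hm'⟩ := csG_rep N hρ hδ hW' hp' hC'
  rw [se, se'] at h
  have hx : ¬ IsLat (xP p r) := by rw [← onCK_iff]; exact hC
  have hx' : ¬ IsLat (xP p' r') := by rw [← onCK_iff]; exact hC'
  obtain ⟨h1, n, hn⟩ := KL_inj N hx hx' s0 s1 s0' s1' sn sn' h
  unfold xP at hn
  obtain ⟨g0, g1, g2⟩ := pt_inj_vec hn
  constructor
  · rw [mem_GI]
    refine ⟨⟨n 0, by rw [Complex.sub_re]; linarith⟩, ⟨m' - m, ?_⟩⟩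
    rw [Complex.sub_im]
    push_cast
    linarith
  · rw [mem_GI]
    exact ⟨⟨n 2, by rw [Complex.sub_re]; linarith⟩, ⟨n 1, by rw [Complex.sub_im]; linarith⟩⟩

theorem csG_val {S : Surg φ X} {p r : ℂ} (hp : p ∉ GI) (hC : ¬ OnCK p r) :
    ∃ x t, ¬ IsLat x ∧ csG S (p, r) = S.H (x, t) := by
  set m := round p.im with hm
  have h0 : 0 ≤ 1 / 2 + p.im - m := by have := (rd_mem p.im).1; linarith
  have h1 : 1 / 2 + p.im - m < 1 := by have := (rd_mem p.im).2; linarith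
  have hx : ¬ IsLat (xP p r) := by rw [← onCK_iff]; exact hC
  rw [csG_eq S hC m h0 h1]
  obtain ⟨a, h2, h3⟩ := KL_val S hx (t := 1 / 2 + p.im - m) (by
    rw [xP_zero', NP_iff p m h0 h1.le]
    exact hp)
  exact ⟨_, _, h2, h3⟩

theorem csG_notT {S : Surg φ X} (N : Nrm S κ δ ε k) {ρ : ℝ} (hρ : ρ ≤ 1 / 8) (hδ : ρ ≤ δ)
    {p r : ℂ} (hW : (p, r) ∈ Wd ρ) (hp : p ∉ GI) (hC : ¬ OnCK p r) : csG S (p, r) ∉ TT S := by
  obtain ⟨s, s0, s1, sn, se, m, hm⟩ := csG_rep N hρ hδ hW hp hC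
  have hx : ¬ IsLat (xP p r) := by rw [← onCK_iff]; exact hC
  rw [se]
  exact KL_notT N hx s0 s1 sn

end

end Pool.Agent.TSK
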