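import Pool.Agent.TSK.CsG
import Pool.Agent.CSG.SFrame

/-!
# TSK/CsJ: the charts `jK`, `jT` from normalised surgery data
-/

open scoped Manifold ContDiff Topology
open Complex (I)
open Set Filter

namespace Pool.Agent.TSK
open Pool.Agent.TS
open Pool.Agent.CSG

/-- the swap of the coordinates `1` and `2` -/
noncomputable def swI : E3 ≃ₗᵢ[ℝ] E3 :=
  LinearIsometryEquiv.piLpCongrLeft 2 ℝ ℝ (Equiv.swap (1 : Fin 3) 2)

theorem swI_apply (x : E3) (i : Fin 3) : swI x i = x (Equiv.swap (1 : Fin 3) 2 i) := by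
  simp [swI, LinearIsometryEquiv.piLpCongrLeft_apply, Equiv.piCongrLeft']

theorem swI_zero (x : E3) : swI x 0 = x 0 := by
  rw [swI_apply]; rfl
theorem swI_one (x : E3) : swI x 1 = x 2 := by
  rw [swI_apply]; rfl
theorem swI_two (x : E3) : swI x 2 = x 1 := by
  rw [swI_apply]; rfl

section
variable {X : Type*} [TopologicalSpace X] [ChartedSpace E4 X] {φ κ : Equiv.Perm E3}
  {δ ε : ℝ} {k : ℤ}

/-- the chart of the surgery -/
noncomputable def csK (S : Surg φ X) (a : S2 × ℂ) : X := S.j (sphMap swI a.1, -a.2)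

/-- the point near the torus -/
noncomputable def ptT (ε q : ℝ) (Z : ℂ) : ℂ := ε * ((starRingEnd ℂ) Z * ex q)

/-- the chart near the torus -/
noncomputable def csT (S : Surg φ X) (ε : ℝ) (a : ℝ × ℝ × ℂ) : X :=
  S.H (pt (1 / 2 + (ptT ε a.1 a.2.2).re) (Int.fract a.1 - 1 / 4) (Int.fract a.2.1),
    1 / 2 + (ptT ε a.1 a.2.2).im)

theorem norm_ptT {ε : ℝ} (hε : 0 < ε) (q : ℝ) (Z : ℂ) : ‖ptT ε q Z‖ = ε * ‖Z‖ := by
  unfold ptT
  rw [norm_mul, norm_mul, norm_ex, mul_one, Complex.norm_conj, Complex.norm_real,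
    Real.norm_of_nonneg hε.le]

theorem ptT_re_lt {ε : ℝ} (hε : 0 < ε) (hε' : ε ≤ 1 / 1000) (q : ℝ) {Z : ℂ} (hZ : ‖Z‖ < 5) :
    |(ptT ε q Z).re| < 1 / 20 ∧ |(ptT ε q Z).im| < 1 / 20 := by
  have h : ‖ptT ε q Z‖ < 1 / 20 := by
    rw [norm_ptT hε]
    nlinarith [norm_nonneg Z]
  exact ⟨lt_of_le_of_lt (Complex.abs_re_le_norm _) h, lt_of_le_of_lt (Complex.abs_im_le_norm _) h⟩

theorem not_lat_half {a u n : ℝ} (h : |a| < 1 / 20) : ¬ IsLat (pt (1 / 2 + a) u n) := by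
  intro hl
  obtain ⟨⟨m, hm⟩, _⟩ := isLat_pt.1 hl
  rw [abs_lt] at h
  have h1 : (0 : ℝ) < m := by linarith [h.1]
  have h2 : (m : ℝ) < 1 := by linarith [h.2]
  have h3 : (0 : ℤ) < m := by exact_mod_cast h1
  have h4 : m < (1 : ℤ) := by exact_mod_cast h2
  omega

theorem csT_eq (S : Surg φ X) (hε : 0 < ε) (hε' : ε ≤ 1 / 1000) (q y : ℝ) {Z : ℂ}
    (hZ : ‖Z‖ < 5) : csT S ε (q, y, Z) =
      S.H (pt (1 / 2 + (ptT ε q Z).re) (q - 1 / 4) y, 1 / 2 + (ptT ε q Z).im) := by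
  unfold csT
  simp only
  have h1 := not_lat_half (u := Int.fract q - 1 / 4) (n := Int.fract y) (ptT_re_lt hε hε' q hZ).1
  rw [← S.H_per _ _ ![0, ⌊q⌋, ⌊y⌋] h1, pt_add_vec]
  congr 2
  congr 1
  · simp
  · show Int.fract q - 1 / 4 + ((⌊q⌋ : ℤ) : ℝ) = q - 1 / 4
    have := Int.fract_add_floor q
    linarith
  · show Int.fract y + ((⌊y⌋ : ℤ) : ℝ) = y
    exact Int.fract_add_floor y

theorem csT_per (S : Surg φ X) (ε q y : ℝ) (Z : ℂ) (a b : ℤ) :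
    csT S ε (q + a, y + b, Z) = csT S ε (q, y, Z) := by
  unfold csT ptT
  simp only
  rw [ex_int, Int.fract_add_intCast, Int.fract_add_intCast]

/-- the affine part -/
noncomputable def affT (ε : ℝ) (hε : ε ≠ 0) : (ℝ × ℝ × ℂ) ≃ (ℝ × ℝ × ℝ × ℝ) where
  toFun a := (1 / 2 + (ptT ε a.1 a.2.2).re, a.1 - 1 / 4, a.2.1, 1 / 2 + (ptT ε a.1 a.2.2).im)
  invFun b := (b.2.1 + 1 / 4, b.2.2.1,
    (ε : ℂ)⁻¹ * ((starRingEnd ℂ) (((b.1 - 1 / 2 : ℝ) : ℂ) + ((b.2.2.2 - 1 / 2 : ℝ) : ℂ) * I) *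
      ex (b.2.1 + 1 / 4)))
  left_inv a := by
    have hε1 : (ε : ℂ) ≠ 0 := by exact_mod_cast hε
    have h1 : ((((1 / 2 + (ptT ε a.1 a.2.2).re) - 1 / 2 : ℝ) : ℂ) +
        (((1 / 2 + (ptT ε a.1 a.2.2).im) - 1 / 2 : ℝ) : ℂ) * I) = ptT ε a.1 a.2.2 := by
      apply Complex.ext <;> simp
    have h2 : a.1 - 1 / 4 + 1 / 4 = a.1 := by ring
    have h3 : (starRingEnd ℂ) (ex a.1) * ex a.1 = 1 := by
      rw [← ex_neg, ← ex_add, neg_add_cancel, ex_zero]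
    apply Prod.ext
    · exact h2
    · apply Prod.ext
      · rfl
      · show (ε : ℂ)⁻¹ * ((starRingEnd ℂ) ((((1 / 2 + (ptT ε a.1 a.2.2).re) - 1 / 2 : ℝ) : ℂ) +
          (((1 / 2 + (ptT ε a.1 a.2.2).im) - 1 / 2 : ℝ) : ℂ) * I) * ex (a.1 - 1 / 4 + 1 / 4)) = a.2.2
        rw [h1, h2]
        unfold ptT
        rw [map_mul, map_mul, Complex.conj_ofReal, Complex.conj_conj]
        calc (ε : ℂ)⁻¹ * (ε * (a.2.2 * (starRingEnd ℂ) (ex a.1)) * ex a.1)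
            = ((ε : ℂ)⁻¹ * ε) * a.2.2 * ((starRingEnd ℂ) (ex a.1) * ex a.1) := by ring
          _ = a.2.2 := by rw [h3, inv_mul_cancel₀ hε1]; ring
  right_inv b := by
    have hε1 : (ε : ℂ) ≠ 0 := by exact_mod_cast hε
    have h3 : (starRingEnd ℂ) (ex (b.2.1 + 1 / 4)) * ex (b.2.1 + 1 / 4) = 1 := by
      rw [← ex_neg, ← ex_add, neg_add_cancel, ex_zero]
    have h1 : ptT ε (b.2.1 + 1 / 4) ((ε : ℂ)⁻¹ * ((starRingEnd ℂ)
        (((b.1 - 1 / 2 : ℝ) : ℂ) + ((b.2.2.2 - 1 / 2 : ℝ) : ℂ) * I) * ex (b.2.1 + 1 / 4))) =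
        ((b.1 - 1 / 2 : ℝ) : ℂ) + ((b.2.2.2 - 1 / 2 : ℝ) : ℂ) * I := by
      unfold ptT
      rw [map_mul, map_mul, Complex.conj_conj, ← Complex.ofReal_inv, Complex.conj_ofReal]
      push_cast
      calc (ε : ℂ) * ((ε : ℂ)⁻¹ * (((b.1 : ℂ) - 1 / 2 + ((b.2.2.2 : ℂ) - 1 / 2) * I) *
            (starRingEnd ℂ) (ex (b.2.1 + 1 / 4))) * ex (b.2.1 + 1 / 4))
          = (ε * (ε : ℂ)⁻¹) * ((b.1 : ℂ) - 1 / 2 + ((b.2.2.2 : ℂ) - 1 / 2) * I) *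
            ((starRingEnd ℂ) (ex (b.2.1 + 1 / 4)) * ex (b.2.1 + 1 / 4)) := by ring
        _ = _ := by rw [h3, mul_inv_cancel₀ hε1]; ring
    show (1 / 2 + (ptT ε (b.2.1 + 1 / 4) _).re, b.2.1 + 1 / 4 - 1 / 4, b.2.2.1,
      1 / 2 + (ptT ε (b.2.1 + 1 / 4) _).im) = b
    rw [h1]
    apply Prod.ext
    · simp
    · apply Prod.ext
      · simp
      · apply Prod.ext
        · rfl
        · simp

theorem ptT_smooth (ε : ℝ) : ContDiff ℝ ∞ fun a : ℝ × ℝ × ℂ => ptT ε a.1 a.2.2 := by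
  unfold ptT
  have h1 : ContDiff ℝ ∞ fun a : ℝ × ℝ × ℂ => (starRingEnd ℂ) a.2.2 :=
    (Complex.conjCLE.contDiff).comp (contDiff_snd.comp contDiff_snd)
  exact contDiff_const.mul (h1.mul (ex_smooth.comp contDiff_fst))

theorem affT_smooth (ε : ℝ) (hε : ε ≠ 0) : ContDiff ℝ ∞ (affT ε hε) := by
  show ContDiff ℝ ∞ fun a : ℝ × ℝ × ℂ =>
    (1 / 2 + (ptT ε a.1 a.2.2).re, a.1 - 1 / 4, a.2.1, 1 / 2 + (ptT ε a.1 a.2.2).im)
  exact (contDiff_const.add (Complex.reCLM.contDiff.comp (ptT_smooth ε))).prodMk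
    ((contDiff_fst.sub contDiff_const).prodMk ((contDiff_fst.comp contDiff_snd).prodMk
      (contDiff_const.add (Complex.imCLM.contDiff.comp (ptT_smooth ε)))))

theorem affT_symm_smooth (ε : ℝ) (hε : ε ≠ 0) : ContDiff ℝ ∞ (affT ε hε).symm := by
  show ContDiff ℝ ∞ fun b : ℝ × ℝ × ℝ × ℝ => (b.2.1 + 1 / 4, b.2.2.1,
    (ε : ℂ)⁻¹ * ((starRingEnd ℂ) (((b.1 - 1 / 2 : ℝ) : ℂ) + ((b.2.2.2 - 1 / 2 : ℝ) : ℂ) * I) *
      ex (b.2.1 + 1 / 4)))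
  have ho : ∀ {f : ℝ × ℝ × ℝ × ℝ → ℝ}, ContDiff ℝ ∞ f → ContDiff ℝ ∞ fun q => (f q : ℂ) :=
    fun hf => Complex.ofRealCLM.contDiff.comp hf
  have c1 : ContDiff ℝ ∞ fun b : ℝ × ℝ × ℝ × ℝ => b.2.1 := contDiff_fst.comp contDiff_snd
  have c2 : ContDiff ℝ ∞ fun b : ℝ × ℝ × ℝ × ℝ => b.2.2.1 :=
    contDiff_fst.comp (contDiff_snd.comp contDiff_snd)
  have c3 : ContDiff ℝ ∞ fun b : ℝ × ℝ × ℝ × ℝ => b.2.2.2 :=
    contDiff_snd.comp (contDiff_snd.comp contDiff_snd)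
  refine (c1.add contDiff_const).prodMk (c2.prodMk (contDiff_const.mul (ContDiff.mul ?_
    (ex_smooth.comp (c1.add contDiff_const)))))
  exact (Complex.conjCLE.contDiff).comp ((ho (contDiff_fst.sub contDiff_const)).add
    ((ho (c3.sub contDiff_const)).mul contDiff_const))

theorem csT_loc (S : Surg φ X) (hε : 0 < ε) (hε' : ε ≤ 1 / 1000) (q y : ℝ) {Z : ℂ}
    (hZ : ‖Z‖ < 5) : IsLocalDiffeomorphAt 𝓘(ℝ, ℝ × ℝ × ℂ) (𝓡 4) ∞ (csT S ε) (q, y, Z) := by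
  have h := ld_H S (Φ := affT ε hε.ne')
    (ld_of_perm (affT_smooth ε hε.ne') (affT_symm_smooth ε hε.ne') (q, y, Z))
    (not_lat_half (ptT_re_lt hε hε' q hZ).1)
  apply ld_congr h
  have : ∀ᶠ a : ℝ × ℝ × ℂ in 𝓝 (q, y, Z), ‖a.2.2‖ < 5 :=
    ((continuous_snd.comp continuous_snd).norm).continuousAt.eventually_lt continuousAt_const hZ
  filter_upwards [this] with a ha
  exact csT_eq S hε hε' a.1 a.2.1 ha

theorem csT_inj {S : Surg φ X} (N : Nrm S κ δ ε k) (hε' : ε ≤ 1 / 1000) {q y q' y' : ℝ} {Z Z' : ℂ}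
    (hZ : ‖Z‖ < 5) (hZ' : ‖Z'‖ < 5) (h : csT S ε (q, y, Z) = csT S ε (q', y', Z')) :
    (∃ a : ℤ, q' = q + a) ∧ (∃ b : ℤ, y' = y + b) ∧ Z' = Z := by
  have hε := N.εpos
  obtain ⟨A, hA⟩ := N.monoφ
  rw [csT_eq S hε hε' q y hZ, csT_eq S hε hε' q' y' hZ'] at h
  obtain ⟨h1, h2⟩ := ptT_re_lt hε hε' q hZ
  obtain ⟨h3, h4⟩ := ptT_re_lt hε hε' q' hZ'
  have l1 := not_lat_half (u := q - 1 / 4) (n := y) h1
  have l2 := not_lat_half (u := q' - 1 / 4) (n := y') h3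
  rw [abs_lt] at h1 h2 h3 h4
  obtain ⟨h5, m, hm⟩ := H_inj_one hA S l1 l2 (by linarith) (by linarith) (by linarith)
    (by linarith) h
  obtain ⟨g0, g1, g2⟩ := pt_inj_vec hm
  have h6 : m 0 = 0 := by
    have e1 : (-1 : ℝ) < m 0 := by linarith
    have e2 : (m 0 : ℝ) < 1 := by linarith
    have e3 : (-1 : ℤ) < m 0 := by exact_mod_cast e1
    have e4 : m 0 < (1 : ℤ) := by exact_mod_cast e2
    omega
  have h7 : q' = q + m 1 := by linarith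
  refine ⟨⟨m 1, h7⟩, ⟨m 2, g2⟩, ?_⟩
  have h8 : ptT ε q' Z' = ptT ε q Z := by
    apply Complex.ext
    · rw [h6] at g0
      push_cast at g0
      linarith
    · linarith
  unfold ptT at h8
  have hε1 : (ε : ℂ) ≠ 0 := by exact_mod_cast hε.ne'
  have h9 := mul_left_cancel₀ hε1 h8
  rw [h7, ex_int] at h9
  have h10 := mul_right_cancel₀ (ex_ne q) h9
  exact (starRingEnd ℂ).injective h10

/-- `u`-circles near the torus -/
theorem csT_glue {S : Surg φ X} (hε : 0 < ε) (hε' : ε ≤ 1 / 1000) (q y u s : ℝ) (h0 : 0 < s)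
    (h5 : s < 5) : csT S ε (q, y, s * ex u) =
      csG S (ε * s * ex (q + (-1 : ℤ) * u), (y : ℝ) + (u : ℝ) * I) := by
  have hn : ‖(s : ℂ) * ex u‖ = s := norm_smul_ex s u h0.le
  have hZ : ‖(s : ℂ) * ex u‖ < 5 := by rw [hn]; exact h5
  have hp : ptT ε q (s * ex u) = ε * s * ex (q + (-1 : ℤ) * u) := by
    unfold ptT
    rw [map_mul, Complex.conj_ofReal, ← ex_neg, ex_add]
    have : ((-1 : ℤ) : ℝ) * u = -u := by push_cast; ring
    rw [this]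
    ring
  obtain ⟨h1, h2⟩ := ptT_re_lt hε hε' q hZ
  rw [csT_eq S hε hε' q y hZ]
  rw [hp] at h1 h2 ⊢
  set p : ℂ := ε * s * ex (q + (-1 : ℤ) * u) with hpd
  have hx : ¬ IsLat (xP p ((y : ℝ) + (u : ℝ) * I)) := not_lat_half h1
  have hC : ¬ OnCK p ((y : ℝ) + (u : ℝ) * I) := by rw [onCK_iff]; exact hx
  have h1' := abs_lt.1 h1
  have h2' := abs_lt.1 h2
  have he := csG_eq S hC 0 (by push_cast; linarith [h2'.1]) (by push_cast; linarith [h2'.2])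
  rw [he]
  unfold KL
  have e0 : xP p ((y : ℝ) + (u : ℝ) * I) 0 = 1 / 2 + p.re := by simp
  have e1 : xP p ((y : ℝ) + (u : ℝ) * I) 1 = u := by simp
  have e2 : xP p ((y : ℝ) + (u : ℝ) * I) 2 = y := by simp
  have e3 : 1 / 2 + p.im - ((0 : ℤ) : ℝ) = 1 / 2 + p.im := by simp
  rw [e0, e1, e2, e3]
  have hfl : Int.fract (1 / 2 + p.re) = 1 / 2 + p.re := by
    rw [Int.fract_eq_self]
    constructor <;> linarith [h1'.1, h1'.2]
  have hF : FL (1 / 2 + p.re) (1 / 2 + p.im) = -(I * p) := by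
    rw [FL_mid (by rw [add_sub_cancel_left]; exact h2.le)
      (by rw [hfl, add_sub_cancel_left]; linarith [h1]), hfl]
    apply Complex.ext <;> simp
  have h6 : FL (1 / 2 + p.re) (1 / 2 + p.im) * Complex.exp ((2 * Real.pi * u : ℝ) * I) =
      ((ε * s : ℝ) : ℂ) * Complex.exp ((2 * Real.pi * (q - 1 / 4) : ℝ) * I) := by
    rw [hF]
    have e4 : Complex.exp ((2 * Real.pi * u : ℝ) * I) = ex u := rfl
    have e5 : Complex.exp ((2 * Real.pi * (q - 1 / 4) : ℝ) * I) = ex (q - 1 / 4) := rfl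
    have e6 : ex (q - 1 / 4) = ex q * (-I) := by
      rw [sub_eq_add_neg, ex_add, ex_neg, ex_quarter, Complex.conj_I]
    have e7 : ex (q + (-1 : ℤ) * u) * ex u = ex q := by
      rw [← ex_add]
      congr 1
      push_cast
      ring
    rw [e4, e5, e6, hpd]
    calc -(I * (ε * s * ex (q + (-1 : ℤ) * u))) * ex u
        = -I * ε * s * (ex (q + (-1 : ℤ) * u) * ex u) := by ring
      _ = _ := by rw [e7]; push_cast; ring
  rw [h6, HH_smul S _ _ _ _ _ (mul_pos hε h0), HH_exp S (q - 1 / 4) (not_lat_half h1)]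

end

end Pool.Agent.TSK
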