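import Pool.Agent.TSK.CsJ

/-!
# TSK/CsLS: the local structure `LS` from normalised surgery data
-/

open scoped Manifold ContDiff Topology
open Complex (I)
open Set Filter

namespace Pool.Agent.TSK
open Pool.Agent.TS
open Pool.Agent.CSG

section
variable {X : Type*} [TopologicalSpace X] [ChartedSpace E4 X] {φ κ : Equiv.Perm E3}
  {δ ε : ℝ} {k : ℤ}

theorem csK_glue {S : Surg φ X} (N : Nrm S κ δ ε k) (hε' : ε ≤ 1 / 1000) (y : S2) (t s : ℝ)
    (h0 : 0 < s) (h1 : s < 1) :
    csK S (y, s * ex t) = csG S ((1 / 2 + ε * s * (y : E3) 0 : ℝ) + (t : ℝ) * I,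
      ε * s * ex ((-k : ℤ) * thc t) * yc y) := by
  have hε := N.εpos
  set m : ℤ := ⌊1 / 2 + t⌋ with hm
  have hm0 : 0 ≤ 1 / 2 + t - m := by have := Int.floor_le (1 / 2 + t); linarith
  have hm1 : 1 / 2 + t - m < 1 := by have := Int.lt_floor_add_one (1 / 2 + t); linarith
  set t' := 1 / 2 + t - m with ht'
  set Y := sphMap swI y with hY
  have hYE : (Y : E3) = swI y := rfl
  have hYn : ‖(Y : E3)‖ = 1 := by
    have := Y.2
    rwa [mem_sphere_zero_iff_norm] at this
  have hz : ‖s • (Y : E3)‖ = s := by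
    rw [norm_smul, hYn, mul_one, Real.norm_of_nonneg h0.le]
  have hz0 : s • (Y : E3) ≠ 0 := by
    rw [← norm_pos_iff, hz]
    exact h0
  -- left side
  have hl1 : -((s : ℂ) * ex t) = s * Complex.exp (2 * Real.pi * t' * I) := by
    have e1 : Complex.exp (2 * Real.pi * t' * I) = ex t' := by
      unfold ex
      push_cast
      rfl
    have e2 : ex t' = ex (t + 1 / 2) := by
      rw [ex_eq_iff]
      exact ⟨m, by rw [ht']; ring⟩
    rw [e1, e2, ex_add, ex_half]
    ring
  have hL : csK S (y, s * ex t) = S.H (S.P t' (s • (Y : E3)), t') := by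
    unfold csK
    simp only
    rw [hl1]
    exact S.glue t' s Y (by linarith) (by linarith) h0 h1
  have hlat : ¬ IsLat (S.P t' (s • (Y : E3))) :=
    S.P_avoid t' _ (by linarith) (by linarith) hz0 (by rw [hz]; exact h1)
  rw [N.P_eq t' _ (by linarith) (by linarith)] at hL hlat
  -- the point
  set c := gfr k t' with hc
  have hcE : c = ex (k * thc t) := by
    rw [hc]
    unfold gfr ex
    have e1 : thc (t' + 1 / 2) = thc t + ((1 - m : ℤ) : ℝ) := by
      rw [← thc_add_int]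
      congr 1
      rw [ht']
      push_cast
      ring
    have e2 : 2 * Real.pi * k * (thc t + ((1 - m : ℤ) : ℝ)) =
        2 * Real.pi * (k * thc t + ((k * (1 - m) : ℤ) : ℝ)) := by
      push_cast
      ring
    rw [e1, e2]
    exact ex_int (k * thc t) (k * (1 - m))
  set w : ℂ := c * (((s • (Y : E3)) 1 : ℝ) + ((s • (Y : E3)) 2 : ℝ) * I) with hw
  set r : ℂ := ε * s * ex ((-k : ℤ) * thc t) * yc y with hr
  set p : ℂ := (1 / 2 + ε * s * (y : E3) 0 : ℝ) + (t : ℝ) * I with hp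
  have hY1 : (Y : E3) 1 = (y : E3) 2 := by rw [hYE, swI_one]
  have hY2 : (Y : E3) 2 = (y : E3) 1 := by rw [hYE, swI_two]
  have hY0 : (Y : E3) 0 = (y : E3) 0 := by rw [hYE, swI_zero]
  have hrw : r = ε * (I * (starRingEnd ℂ) w) := by
    have e1 : ex ((-k : ℤ) * thc t) = (starRingEnd ℂ) (ex (k * thc t)) := by
      rw [← ex_neg]
      congr 1
      push_cast
      ring
    rw [hr, hw, e1, ← hcE, map_mul, map_add, map_mul, Complex.conj_ofReal, Complex.conj_ofReal,
      Complex.conj_I, PiLp.smul_apply, PiLp.smul_apply, hY1, hY2]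
    unfold yc
    simp only [smul_eq_mul]
    push_cast
    have := Complex.I_mul_I
    linear_combination ((ε : ℂ) * s * (starRingEnd ℂ) c * ((y : E3) 1 : ℂ)) * this
  have hrre : r.re = ε * w.im := by
    rw [hrw]
    simp
  have hrim : r.im = ε * w.re := by
    rw [hrw]
    simp
  have hpre : p.re = 1 / 2 + ε * s * (y : E3) 0 := by
    rw [hp]
    simp
  have hpim : p.im = t := by
    rw [hp]
    simp
  have hpt : xP p r = ε • cmul c (s • (Y : E3)) + vec ![1, 0, 0] := by
    have e1 : ε • cmul c (s • (Y : E3)) = pt (ε * (s * (y : E3) 0)) (ε * w.re) (ε * w.im) := by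
      unfold cmul
      rw [← hw]
      ext i
      fin_cases i
      · simp [hY0]
      · simp
      · simp
    rw [e1, pt_add_vec]
    unfold xP
    rw [hrre, hrim, hpre]
    congr 1
    · simp
      ring
    · simp
    · simp
  have hC : ¬ OnCK p r := by
    rw [onCK_iff, hpt, isLat_add_vec]
    exact hlat
  have hR := csG_eq S hC m (by rw [hpim]; exact hm0) (by rw [hpim]; exact hm1)
  rw [hpim] at hR
  rw [hL, hR]
  have hx : ¬ IsLat (xP p r) := by rw [← onCK_iff]; exact hC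
  have hy0 : |(y : E3) 0| ≤ 1 := by
    have h10 := PiLp.norm_apply_le (y : E3) (0 : Fin 3)
    have := y.2
    rw [mem_sphere_zero_iff_norm] at this
    rw [this] at h10
    rwa [Real.norm_eq_abs] at h10
  have hsm : |ε * s * (y : E3) 0| < 1 / 20 := by
    rw [abs_mul, abs_mul, abs_of_pos hε, abs_of_pos h0]
    nlinarith [abs_nonneg ((y : E3) 0), mul_pos hε h0]
  have hside : Int.fract ((xP p r) 0) ≤ 3 / 10 ∨ 7 / 10 ≤ Int.fract ((xP p r) 0) := by
    rw [xP_zero', hpre]
    rw [abs_lt] at hsm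
    rcases lt_or_ge (ε * s * (y : E3) 0) 0 with h2 | h2
    · right
      have : Int.fract (1 / 2 + (1 / 2 + ε * s * (y : E3) 0)) = 1 + ε * s * (y : E3) 0 := by
        rw [Int.fract_eq_iff]
        refine ⟨by linarith, by linarith, 0, by push_cast; ring⟩
      rw [this]
      linarith
    · left
      have : Int.fract (1 / 2 + (1 / 2 + ε * s * (y : E3) 0)) = ε * s * (y : E3) 0 := by
        rw [Int.fract_eq_iff]
        refine ⟨by linarith, by linarith, 1, by push_cast; ring⟩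
      rw [this]
      linarith
  rw [KL_side S hx hside, hpt, S.H_per _ _ _ hlat]

/-- The local structure near the two tori. -/
noncomputable def csLS {S : Surg φ X} (N : Nrm S κ δ ε k) {ρ : ℝ} (hε' : ε ≤ 1 / 1000)
    (hρ' : ρ ≤ 1 / 8) (hδ : ρ ≤ δ) : LS ε ρ (-k) (-1) X where
  G := csG S
  jK := csK S
  jT := csT S ε
  G_per p r a b _ ha hb := csG_per S p r ha hb
  G_loc p r hW hp hC := csG_loc N hρ' hδ hW hp hC
  G_inj p r p' r' hW hp hC hW' hp' hC' h := csG_inj N hρ' hδ hW hp hC hW' hp' hC' h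
  jK_loc := by
    intro y ζ hζ
    have h1 : IsLocalDiffeomorphAt ((𝓡 2).prod 𝓘(ℝ, ℂ)) ((𝓡 2).prod 𝓘(ℝ, ℂ)) ∞
        (sphDiff swI) (y, ζ) := (sphDiff swI).isLocalDiffeomorph (y, ζ)
    let ng : Diffeomorph ((𝓡 2).prod 𝓘(ℝ, ℂ)) ((𝓡 2).prod 𝓘(ℝ, ℂ)) (S2 × ℂ) (S2 × ℂ) ∞ :=
      (Diffeomorph.refl (𝓡 2) S2 ∞).prodCongr
        (ContinuousLinearEquiv.neg ℝ : ℂ ≃L[ℝ] ℂ).toDiffeomorph
    have h2 : IsLocalDiffeomorphAt ((𝓡 2).prod 𝓘(ℝ, ℂ)) ((𝓡 2).prod 𝓘(ℝ, ℂ)) ∞
        ng (sphDiff swI (y, ζ)) := ng.isLocalDiffeomorph _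
    have h3 := S.j_loc (sphMap swI y) (-ζ) (by rw [norm_neg]; exact hζ)
    exact (h1.comp ((𝓡 2).prod 𝓘(ℝ, ℂ)) (S2 × ℂ) h2).comp (𝓡 4) X h3
  jK_inj := by
    intro y y' ζ ζ' hζ hζ' h
    obtain ⟨h1, h2⟩ := S.j_inj _ _ _ _ (by rw [norm_neg]; exact hζ) (by rw [norm_neg]; exact hζ') h
    refine ⟨?_, neg_injective h2⟩
    have := congrArg (fun y : S2 => (y : E3)) h1
    simp only [sphMap] at this
    exact Subtype.ext (swI.injective this)
  jT_per q y Z a b := csT_per S ε q y Z a b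
  jT_loc q y Z hZ := csT_loc S N.εpos hε' q y hZ
  jT_inj q y Z q' y' Z' hZ hZ' h := csT_inj N hε' hZ hZ' h
  glueK y t s h0 h1 := csK_glue N hε' y t s h0 h1
  glueT q y u s h0 h5 := csT_glue N.εpos hε' q y u s h0 h5
  disjK := by
    intro y p r _ hp hC h
    obtain ⟨x, t, hx, hxt⟩ := csG_val (S := S) hp hC
    rw [hxt] at h
    unfold csK at h
    simp only [neg_zero] at h
    exact S.disj _ _ _ hx h
  disjT := by
    intro q y p r hW hp hC h
    apply csG_notT N hρ' hδ hW hp hC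
    rw [← h]
    refine ⟨Int.fract q - 1 / 4, Int.fract y, ?_⟩
    unfold csT ptT
    simp
  disjKT := by
    intro y q y' h
    unfold csK csT ptT at h
    simp only [neg_zero, map_zero, zero_mul, mul_zero, Complex.zero_re, add_zero,
      Complex.zero_im] at h
    have hl : ¬ IsLat (pt (1 / 2) (Int.fract q - 1 / 4) (Int.fract y')) := by
      have := not_lat_half (a := 0) (u := Int.fract q - 1 / 4) (n := Int.fract y') (by simp)
      rwa [add_zero] at this
    exact S.disj _ _ _ hl h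

end

end Pool.Agent.TSK
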