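import Pool.Agent.TSK.CsPDf
import Pool.Agent.TSK.IsotB
import Pool.Agent.CSG.Move

/-!
# TSK/Gompf: P-data do not see the choice of `w`; the isotopies for Gompf's move
-/

open scoped Manifold ContDiff Topology
open Complex (I)
open Set Filter

namespace Pool.Agent.TSK
open Pool.Agent.TS
open Pool.Agent.CSG

/-- step function with step in `1/5 < fract y < 3/10` -/
noncomputable def mu (x : ℝ) : ℝ := ⌊x⌋ + stp (1 / 5) (3 / 10) (Int.fract x)

theorem mu_smooth : ContDiff ℝ ∞ mu :=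
  FunBasic_smooth (by norm_num) (by norm_num) (by norm_num)

theorem mu_add_int (x : ℝ) (k : ℤ) : mu (x + k) = mu x + k := FunBasic_add_int _ _ x k

theorem mu_key (k : ℤ) {x : ℝ} (h1 : k - 1 + 3 / 10 ≤ x) (h2 : x ≤ k + 1 + 1 / 5) :
    mu x = k + stp (1 / 5) (3 / 10) (x - k) :=
  FunBasic_key (by norm_num) (by norm_num) (by norm_num) k h1 h2

theorem mu_zero {x : ℝ} (h1 : -(7 / 10) ≤ x) (h2 : x ≤ 1 / 5) : mu x = 0 := by
  rw [mu_key 0 (by push_cast; linarith) (by push_cast; linarith),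
    stp_zero (by norm_num) (by push_cast; linarith)]
  simp

theorem mu_one {x : ℝ} (h1 : 3 / 10 ≤ x) (h2 : x ≤ 6 / 5) : mu x = 1 := by
  rw [mu_key 1 (by push_cast; linarith) (by push_cast; linarith),
    stp_zero (by norm_num) (by push_cast; linarith)]
  simp

theorem mu_int (b : ℤ) : mu b = b := by
  have := mu_add_int 0 b
  have h0 : mu 0 = 0 := mu_zero (by norm_num) (by norm_num)
  rw [zero_add, h0, zero_add] at this
  exact this

theorem mu_half (b : ℤ) : mu (b + 1 / 2) = b + 1 := by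
  have := mu_add_int (1 / 2) b
  have h1 : mu (1 / 2) = 1 := mu_one (by norm_num) (by norm_num)
  rw [h1] at this
  rw [add_comm, this]
  ring

/-- the nonlinear shear -/
noncomputable def Qm (m m' : ℤ) : Equiv.Perm E3 := sh2 (fun y => m * mu y) (fun y => m' * mu y)

theorem Qm_apply (m m' : ℤ) (x : E3) :
    Qm m m' x = pt (x 0 + m * mu (x 2)) (x 1 + m' * mu (x 2)) (x 2) := rfl

theorem Qm_mono (m m' : ℤ) : Mono !![1, 0, m; 0, 1, m'; 0, 0, 1] (Qm m m') := by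
  apply sh2_mono (contDiff_const.mul mu_smooth) (contDiff_const.mul mu_smooth)
  · intro y b
    rw [mu_add_int]
    ring
  · intro y b
    rw [mu_add_int]
    ring
  · rw [mu_zero (by norm_num) (by norm_num), mul_zero]
  · rw [mu_zero (by norm_num) (by norm_num), mul_zero]

theorem Qm_near (m m' : ℤ) {x : E3} (h : |x 2| < 1 / 5) : Qm m m' x = x := by
  rw [abs_lt] at h
  rw [Qm_apply, mu_zero (by linarith [h.1]) (by linarith [h.2])]
  simp [pt_eta]

theorem Qm_half (m m' : ℤ) {x : E3} (h : |x 2 - 1 / 2| < 1 / 5) :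
    Qm m m' x = x + vec ![m, m', 0] := by
  rw [abs_lt] at h
  rw [Qm_apply, mu_one (by linarith [h.1]) (by linarith [h.2])]
  conv_rhs => rw [← pt_eta x]
  rw [pt_add_vec]
  simp

theorem Qm_off (m m' : ℤ) (x : E3) : OffAx (Qm m m' x) ↔ OffAx x := by
  unfold OffAx
  rw [Qm_apply, pt_one', pt_two', not_iff_not]
  constructor
  · rintro ⟨⟨a, ha⟩, ⟨b, hb⟩⟩
    rw [hb, mu_int] at ha
    exact ⟨⟨a - m' * b, by push_cast; linarith⟩, ⟨b, hb⟩⟩
  · rintro ⟨⟨a, ha⟩, ⟨b, hb⟩⟩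
    refine ⟨⟨a + m' * b, ?_⟩, ⟨b, hb⟩⟩
    rw [hb, mu_int, ha]
    push_cast
    ring

theorem Qm_onC (m m' : ℤ) (x : E3) (t : ℝ) : OnC (Qm m m' x) t ↔ OnC x t := by
  unfold OnC
  rw [Qm_apply, pt_zero', pt_two']
  constructor
  · rintro ⟨h, ⟨a, ha⟩, ⟨b, hb⟩⟩
    rw [hb, mu_half] at ha
    exact ⟨h, ⟨a - m * (b + 1), by push_cast; linarith⟩, ⟨b, hb⟩⟩
  · rintro ⟨h, ⟨a, ha⟩, ⟨b, hb⟩⟩
    refine ⟨h, ⟨a + m * (b + 1), ?_⟩, ⟨b, hb⟩⟩
    rw [hb, mu_half, ha]
    push_cast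
    ring

section
variable {X : Type*} [TopologicalSpace X] [ChartedSpace E4 X] {κ : Equiv.Perm E3}
  {ε : ℝ} {k e : ℤ}

/-- P-data does not see the choice of `w`. -/
theorem pd_gompf (D : PD κ ε k e X) (hε : 0 < ε) (hε' : ε ≤ 1 / 1000) (m m' : ℤ) :
    Nonempty (PD ((Qm m m')⁻¹ * κ * Qm m m') ε k e X) := by
  set Q := Qm m m' with hQ
  have hQm := Qm_mono m m'
  rw [← hQ] at hQm
  have hinv : ∀ x, Q (Q⁻¹ x) = x := fun x => app_inv Q x
  refine ⟨{
    H := fun q => D.H (Q q.1, q.2)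
    jb := D.jb
    jc := D.jc
    H_loc := ?_
    H_per := ?_
    H_mon := ?_
    H_inj := ?_
    jb_per := D.jb_per
    jb_loc := D.jb_loc
    jb_inj := D.jb_inj
    jc_loc := D.jc_loc
    jc_inj := D.jc_inj
    glueb := ?_
    gluec := ?_
    disjb := fun θ x₀ x t hx hC h1 h2 => D.disjb θ x₀ (Q x) t ((Qm_off m m' x).2 hx)
      (fun h => hC ((Qm_onC m m' x t).1 h)) h1 h2
    disjc := fun y x t hx hC h1 h2 => D.disjc y (Q x) t ((Qm_off m m' x).2 hx)
      (fun h => hC ((Qm_onC m m' x t).1 h)) h1 h2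
    disjbc := D.disjbc
    cover := ?_ }⟩
  · intro x t h1 h2 hx hC
    let f : (E3 × ℝ) ≃ (E3 × ℝ) := ⟨fun q => (Q q.1, q.2), fun q => (Q.symm q.1, q.2),
      fun q => by simp, fun q => by simp⟩
    have c1 : ContDiff ℝ ∞ f := by
      show ContDiff ℝ ∞ fun q : E3 × ℝ => (Q q.1, q.2)
      exact (hQm.smooth.comp contDiff_fst).prodMk contDiff_snd
    have c2 : ContDiff ℝ ∞ f.symm := by
      show ContDiff ℝ ∞ fun q : E3 × ℝ => (Q.symm q.1, q.2)
      exact (hQm.smooth_symm.comp contDiff_fst).prodMk contDiff_snd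
    exact (ld_of_perm c1 c2 (x, t)).comp (𝓡 4) X (g := D.H)
      (D.H_loc (Q x) t h1 h2 ((Qm_off m m' x).2 hx) (fun h => hC ((Qm_onC m m' x t).1 h)))
  · intro x t n h1 h2 hx
    show D.H (Q (x + vec n), t) = D.H (Q x, t)
    rw [hQm.lat]
    exact D.H_per _ _ _ h1 h2 ((Qm_off m m' x).2 hx)
  · intro x t h1 h2 hx
    show D.H (Q (Q⁻¹ (κ (Q x))), t) = D.H (Q x, t + 1)
    rw [hinv]
    exact D.H_mon _ _ h1 h2 ((Qm_off m m' x).2 hx)
  · intro x y s t hx hC hy hC' h1 h2 h3 h4 h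
    obtain ⟨h5, n, hn⟩ := D.H_inj (Q x) (Q y) s t ((Qm_off m m' x).2 hx)
      (fun h => hC ((Qm_onC m m' x s).1 h)) ((Qm_off m m' y).2 hy)
      (fun h => hC' ((Qm_onC m m' y t).1 h)) h1 h2 h3 h4 h
    refine ⟨h5, (!![1, 0, m; 0, 1, m'; 0, 0, 1] : Matrix (Fin 3) (Fin 3) ℤ)⁻¹.mulVec n, ?_⟩
    apply Q.injective
    rw [hn, hQm.lat, Matrix.mulVec_mulVec, Matrix.mul_nonsing_inv _ hQm.unit, Matrix.one_mulVec]
  · intro θ x t s h1 h2 h3 h4
    rw [D.glueb θ x t s h1 h2 h3 h4]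
    set r : ℂ := ε * s * ex (θ + k * (t - 1 / 2)) with hr
    have hrn : ‖r‖ = ε * s := by
      rw [hr]
      have := norm_smul_ex (ε * s) (θ + k * (t - 1 / 2)) (mul_pos hε h3).le
      rw [Complex.ofReal_mul] at this
      exact this
    have hre : |r.re| < 1 / 5 := by
      refine lt_of_le_of_lt (Complex.abs_re_le_norm r) ?_
      rw [hrn]
      nlinarith
    show _ = D.H (Q (pt x r.im r.re), t)
    rw [Qm_near m m' (x := pt x r.im r.re) (by rw [pt_two']; exact hre)]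
  · intro y u s h1 h2
    rw [D.gluec y u s h1 h2]
    set z : ℂ := ε * s * ex (e * thc u) * yc y with hz
    have hzn : ‖z‖ ≤ ε * s := by
      rw [hz, norm_mul]
      have := norm_smul_ex (ε * s) (e * thc u) (mul_pos hε h1).le
      rw [Complex.ofReal_mul] at this
      rw [this]
      have := norm_yc_le y
      nlinarith [mul_pos hε h1]
    have hzs : ‖z‖ < 1 / 20 := by nlinarith
    have hz1 := abs_lt.1 (lt_of_le_of_lt (Complex.abs_im_le_norm z) hzs)
    have hy0 : |(y : E3) 0| ≤ 1 := by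
      have h10 := PiLp.norm_apply_le (y : E3) (0 : Fin 3)
      have := y.2
      rw [mem_sphere_zero_iff_norm] at this
      rw [this] at h10
      rwa [Real.norm_eq_abs] at h10
    have hsm : |ε * s * (y : E3) 0| < 1 / 20 := by
      rw [abs_mul, abs_mul, abs_of_pos hε, abs_of_pos h1]
      nlinarith [abs_nonneg ((y : E3) 0), mul_pos hε h1]
    set x : E3 := pt (1 / 2 + z.re) u (1 / 2 + ε * s * (y : E3) 0) with hx
    have hx2 : x 2 = 1 / 2 + ε * s * (y : E3) 0 := by rw [hx, pt_two']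
    have hOff : OffAx x := by
      rintro ⟨_, b, hb⟩
      rw [hx2] at hb
      rw [abs_lt] at hsm
      have f1 : (0 : ℝ) < b := by linarith [hsm.1]
      have f2 : (b : ℝ) < 1 := by linarith [hsm.2]
      have f3 : (0 : ℤ) < b := by exact_mod_cast f1
      have f4 : b < (1 : ℤ) := by exact_mod_cast f2
      omega
    show _ = D.H (Q x, 1 / 2 + z.im)
    rw [hQ, Qm_half m m' (x := x) (by rw [hx2, add_sub_cancel_left]; linarith)]
    exact (D.H_per _ _ _ (by linarith [hz1.1]) (by linarith [hz1.2]) hOff).symm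
  · intro q
    rcases D.cover q with h | h | ⟨x, t, hx, hC, h1, h2, h3⟩
    · exact Or.inl h
    · exact Or.inr (Or.inl h)
    · right; right
      refine ⟨Q⁻¹ x, t, ?_, ?_, h1, h2, ?_⟩
      · rw [← Qm_off m m', ← hQ, hinv]
        exact hx
      · rw [← Qm_onC m m', ← hQ, hinv]
        exact hC
      · show q = D.H (Q (Q⁻¹ x), t)
        rw [hinv]
        exact h3

end

/-! ### isotopies -/

theorem act_Q (m m' : ℤ) (x : E3) : act !![1, 0, m; 0, 1, m'; 0, 0, 1] x =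
    sh2 (fun y => m * y) (fun y => m' * y) x := by
  rw [sh2_apply]
  ext i
  fin_cases i <;> simp [act, Fin.sum_univ_three, pt]

/-- the isotopy from the linear monodromy to `sh (k lam) * (Q⁻¹ κ₀ Q)` -/
theorem exists_isotQ {C : Matrix (Fin 3) (Fin 3) ℤ} {aC κ₀ : Equiv.Perm E3}
    (haC : ∀ x, aC x = act C x) (hmC : Mono C aC) {Ψ₀ : Isot} (hΨ₀ : aC * Ψ₀.ψ 1 = κ₀)
    (m m' k : ℤ) {B : Equiv.Perm E3}
    (hB : ∀ x, B x = act (Matrix.transvection 1 0 k * ((!![1, 0, m; 0, 1, m'; 0, 0, 1])⁻¹ * C *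
      !![1, 0, m; 0, 1, m'; 0, 0, 1])) x) :
    ∃ Ψ : Isot, B * Ψ.ψ 1 = sh (fun y _ => k * lam y) * ((Qm m m')⁻¹ * κ₀ * Qm m m') := by
  set M : Matrix (Fin 3) (Fin 3) ℤ := !![1, 0, m; 0, 1, m'; 0, 0, 1] with hM
  have hMdet : IsUnit M.det := by
    rw [hM, Matrix.det_fin_three]
    simp
  -- the linear shear `q`
  set q : Equiv.Perm E3 := sh2 (fun y => m * y) (fun y => m' * y) with hq
  have hql : ∀ x, q x = act M x := fun x => (act_Q m m' x).symm
  have hqm : Mono M q := by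
    apply sh2_mono (contDiff_const.mul contDiff_id) (contDiff_const.mul contDiff_id)
    · intro y b; simp only [id]; ring
    · intro y b; simp only [id]; ring
    · simp
    · simp
  -- the periodic shear `E`
  set E : Equiv.Perm E3 := sh2 (fun y => m * (mu y - y)) (fun y => m' * (mu y - y)) with hE
  have hQ : Qm m m' = q * E := by
    rw [hq, hE, sh2_mul]
    unfold Qm
    congr 1
    · funext y; ring
    · funext y; ring
  obtain ⟨ΨE, hΨE⟩ := isot_sh2 (f := fun y => m * (mu y - y)) (g := fun y => m' * (mu y - y))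
    (contDiff_const.mul (mu_smooth.sub contDiff_id)) (contDiff_const.mul (mu_smooth.sub contDiff_id))
    (-m) (-m') (η := 1 / 5) (by norm_num)
    (by intro y b; rw [mu_add_int]; ring) (by intro y b; rw [mu_add_int]; ring)
    (by
      intro y hy
      have := abs_lt.1 hy
      rw [mu_zero (by linarith [this.1]) (by linarith [this.2])]
      ring)
    (by
      intro y hy
      have := abs_lt.1 hy
      rw [mu_zero (by linarith [this.1]) (by linarith [this.2])]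
      ring)
  obtain ⟨ΨE', hΨE'⟩ := ΨE.exists_symm
  obtain ⟨ΨF, hΨF⟩ := isot_lam k
  obtain ⟨Ω₁, hΩ₁⟩ := isot_mul ΨF ΨE'
  -- `a' = q⁻¹ aC q`
  have ha'm : Mono (M⁻¹ * C * M) (q⁻¹ * aC * q) := (hqm.inv.mul hmC).mul hqm
  have hqi : ∀ x, q⁻¹ x = act M⁻¹ x := by
    intro x
    rw [Equiv.Perm.inv_eq_iff_eq, hql, ← act_mul, Matrix.mul_nonsing_inv M hMdet, FunBasic_act_one]
  have ha'l : ∀ x, (q⁻¹ * aC * q) x = act (M⁻¹ * C * M) x := by
    intro x
    show q⁻¹ (aC (q x)) = _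
    rw [hqi, haC, hql, act_mul, act_mul]
  obtain ⟨Ω₂, hΩ₂⟩ := isot_conj ha'm ha'l Ω₁
  obtain ⟨Ω₃, hΩ₃⟩ := isot_conj hqm hql Ψ₀
  obtain ⟨Ω₄, hΩ₄⟩ := isot_mul Ω₃ ΨE
  obtain ⟨Ω, hΩ⟩ := isot_mul Ω₂ Ω₄
  refine ⟨Ω, ?_⟩
  have hBq : B = sh (fun y _ => k * y) * (q⁻¹ * aC * q) := by
    ext1 x
    show B x = sh (fun y _ => k * y) ((q⁻¹ * aC * q) x)
    rw [hB, act_mul, ha'l, Isots_act_transvection]
  have hF : sh (fun y _ => k * y) * sh (fun y _ => k * (lam y - y)) =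
      sh (fun y _ => k * lam y) := by
    rw [sh_mul]
    congr 1
    funext n y
    ring
  have hΨE1 : ΨE.ψ 1 = E := hΨE
  rw [hΩ, hΩ₄, hΩ₃, hΩ₂, hΩ₁, hΨE', hΨE1, hΨF, hBq, ← hF, hQ, ← hΨ₀]
  group

end Pool.Agent.TSK
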